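import Pool.Agent.Q278.ES.F
import Pool.Agent.Q246.SA.Tot
import Pool.Agent.Y771.NF.FinD

set_option autoImplicit false

/-!
# Equal spacing for the averages of completed L-functions
-/

namespace Pool.Agent.Q278.ES

open Complex Set Metric Filter Topology
open Pool.Agent.Y671.GL
open Pool.Agent.Q246.SA (Sy FF FF_bad FF_count FF_tot)
open Pool.Agent.Q246.NC (approx_symm)
open scoped ComplexConjugate

variable {κ : ℝ} {H X Z : ℂ → ℂ}

theorem sy_of (hκ : 1 / 2 ≤ κ) (g : GG κ H X Z) (hst : ∀ s : ℂ, X s = 0 → |s.re| ≤ 1 / 2) (hA : AppX X) : Sy X := by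
  have hXd := g.cg.cf.diff
  have hXs := g.cg.cf.symm
  obtain ⟨K0, hK0, hslow⟩ := g.cg.slow
  have hne : ∃ z, X z ≠ 0 := by
    refine ⟨1, fun h0 => ?_⟩
    have := hst 1 h0
    norm_num at this
  have hz0 : ∃ z, X z = 0 := by
    obtain ⟨c0, T0, hc0, hT0, htot⟩ := Pool.Agent.Y423.GL.totd κ H _ Z hκ g.cg hA 1 le_rfl
    obtain ⟨Y, hY1, hY2⟩ := htot 0 T0 le_rfl (by
      have : 0 ≤ Real.log T0 := Real.log_nonneg (by linarith)
      simpa using this)
    rcases Y.eq_empty_or_nonempty with h0 | ⟨s, hs⟩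
    · exfalso
      rw [h0, Finset.sum_empty] at hY2
      have h1 : 0 < Real.log T0 := Real.log_pos (by linarith)
      have h2 : 0 < c0 * T0 * Real.log T0 := by positivity
      linarith
    · have := (hY1 s hs).1
      rw [iteratedDeriv_zero] at this
      exact ⟨s, this⟩
  exact ⟨hXd, hXs, hz0, hst, approx_symm hXd hXs hne hK0 hslow⟩

/-- The input from the theory of L-functions. -/
structure LX (κ : ℝ) (H X Z : ℂ → ℂ) : Prop where
  half : 1 / 2 ≤ κ
  cf : CF κ H X Z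
  good : GoodE κ X
  top : TopL κ X
  sy : Sy X

theorem lx_of (hκ : 1 / 2 ≤ κ) (g : GG κ H X Z) (hst : ∀ s : ℂ, X s = 0 → |s.re| ≤ 1 / 2) (hA : AppX X) :
    LX κ H X Z :=
  ⟨hκ, g.cg.cf, goodE g.good, g.top, sy_of hκ g hst hA⟩

theorem base_of (g : LX κ H X Z) : Base κ X where
  κ_pos := g.cf.κ_pos
  diff := g.sy.diff
  symm := g.sy.symm
  strip := g.sy.strip
  bad := fun _ _ _ hs hω h0 hb => FF_bad g.sy hs hω h0 hb
  cnt := FF_count g.sy g.cf
  good := g.good
  top := g.top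

/-- **Proportions.** -/
theorem prop_X (g : LX κ H X Z) {η : ℝ} (hη0 : 0 < η) (hη1 : η ≤ 1) :
    ∃ c C : ℝ, 0 < c ∧ 0 < C ∧ ∀ (T s : ℝ) (ω : ℂ), 2 ≤ T → 0 < s → s ≤ 1 → ‖ω‖ = 1 →
      ∀ S : Finset ℂ, (∀ z ∈ S, Fs X s ω z = 0 ∧ 0 < z.im ∧ z.im ≤ T ∧ ¬ Nice κ η (Fs X s ω) z) →
      ∃ S' : Finset ℂ, (∀ z ∈ S', Fs X s ω z = 0 ∧ 0 < z.im ∧ z.im ≤ T) ∧
      ∑ z ∈ S, (analyticOrderNatAt (Fs X s ω) z : ℝ) ≤
        C * T ^ (-(c * s)) * ∑ z ∈ S', (analyticOrderNatAt (Fs X s ω) z : ℝ) := by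
  obtain ⟨c, C, A, hc, hc2, hC, hA, hall⟩ := (base_of g).all hη0 hη1
  obtain ⟨c1, T0, hc1, hT0, htot⟩ := FF_tot g.sy g.cf g.half
  obtain ⟨A', hA'⟩ : ∃ A' : ℝ, A' = max A (Real.log T0) := ⟨_, rfl⟩
  refine ⟨c, C / c1 + Real.exp (c * A'), hc, by positivity, fun T s ω hT hs hs1 hω S hS => ?_⟩
  have hTpos : 0 < T := by linarith
  have hlT : 0 < Real.log T := Real.log_pos (by linarith)
  have hsl : s * Real.log T ≤ Real.log T := by nlinarith
  have hp : 0 < T ^ (-(c * s)) := Real.rpow_pos_of_pos hTpos _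
  have hpe : T ^ (-(c * s)) = Real.exp (-(c * (s * Real.log T))) := by
    rw [Real.rpow_def_of_pos hTpos]
    congr 1
    ring
  rcases le_or_gt A' (s * Real.log T) with h1 | h1
  · have hA1 : A ≤ s * Real.log T := by
      refine le_trans ?_ h1
      rw [hA']
      exact le_max_left _ _
    have hT0' : T0 ≤ T := by
      have h2 : Real.log T0 ≤ Real.log T := by
        refine le_trans ?_ (h1.trans hsl)
        rw [hA']
        exact le_max_right _ _
      exact (Real.log_le_log_iff (by linarith) hTpos).1 h2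
    obtain ⟨S', hS', hlow⟩ := htot s T ω hT0' (by rw [div_le_iff₀ hlT]; linarith) hs1 hω
    refine ⟨S', hS', ?_⟩
    have h2 := hall T s ω hs hs1 hT hA1 hω S hS
    have h3 : T ^ (1 - c * s) = T * T ^ (-(c * s)) := by
      rw [sub_eq_add_neg, Real.rpow_add hTpos, Real.rpow_one]
    have h4 : T * Real.log T ≤ 1 / c1 * ∑ z ∈ S', (analyticOrderNatAt (Fs X s ω) z : ℝ) := by
      rw [one_div, ← div_eq_inv_mul, le_div_iff₀ hc1]
      refine le_trans (le_of_eq ?_) hlow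
      ring
    have h5 : 0 ≤ ∑ z ∈ S', (analyticOrderNatAt (Fs X s ω) z : ℝ) := Finset.sum_nonneg fun _ _ => Nat.cast_nonneg _
    calc _ ≤ C * T ^ (1 - c * s) * Real.log T := h2
      _ = C * T ^ (-(c * s)) * (T * Real.log T) := by rw [h3]; ring
      _ ≤ C * T ^ (-(c * s)) * (1 / c1 * ∑ z ∈ S', (analyticOrderNatAt (Fs X s ω) z : ℝ)) := by gcongr
      _ = C / c1 * T ^ (-(c * s)) * ∑ z ∈ S', (analyticOrderNatAt (Fs X s ω) z : ℝ) := by ring
      _ ≤ _ := by
          gcongr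
          linarith [Real.exp_pos (c * A')]
  · refine ⟨S, fun z hz => ⟨(hS z hz).1, (hS z hz).2.1, (hS z hz).2.2.1⟩, ?_⟩
    have h5 : 0 ≤ ∑ z ∈ S, (analyticOrderNatAt (Fs X s ω) z : ℝ) := Finset.sum_nonneg fun _ _ => Nat.cast_nonneg _
    have h6 : 1 ≤ (C / c1 + Real.exp (c * A')) * T ^ (-(c * s)) := by
      have h7 : 1 ≤ Real.exp (c * A') * T ^ (-(c * s)) := by
        rw [hpe, ← Real.exp_add]
        apply Real.one_le_exp
        have : c * (s * Real.log T) ≤ c * A' := mul_le_mul_of_nonneg_left h1.le hc.le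
        linarith
      have h8 : 0 ≤ C / c1 * T ^ (-(c * s)) := by positivity
      linarith
    calc ∑ z ∈ S, (analyticOrderNatAt (Fs X s ω) z : ℝ) = 1 * ∑ z ∈ S, (analyticOrderNatAt (Fs X s ω) z : ℝ) := by ring
      _ ≤ _ := by gcongr

/-! ## Transfer to `G z = v X (i z)` -/

/-- the average over the shifts by `± i h` -/
noncomputable def Av (G : ℂ → ℂ) (h : ℝ) (u : ℂ) (z : ℂ) : ℂ := G (z + h * I) + u * G (z - h * I)

/-- zeros with real part in `(0, T]` -/
def Zer (F : ℂ → ℂ) (T : ℝ) : Set ℂ := {z | F z = 0 ∧ 0 < z.re ∧ z.re ≤ T}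

/-- A real simple zero which is followed by the next zero at the expected distance. -/
def Reg (κ η : ℝ) (F : ℂ → ℂ) (z : ℂ) : Prop :=
  z.im = 0 ∧ deriv F z ≠ 0 ∧ ∃ x : ℝ, z.re < x ∧ F x = 0 ∧
    (∀ w : ℂ, F w = 0 → z.re < w.re → x ≤ w.re) ∧
    |κ * Real.log z.re * (x - z.re) / Real.pi - 1| ≤ η

theorem av_eq {G : ℂ → ℂ} {v : ℂ} (hG : ∀ z, G z = v * X (I * z)) {u : ℂ} (hu : ‖u‖ = 1) (h : ℝ) (z : ℂ) :
    Av G h u z = v * u * Fs X h (-u⁻¹) (I * z) := by
  have hu0 : u ≠ 0 := by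
    intro h0
    rw [h0, norm_zero] at hu
    norm_num at hu
  unfold Av Fs
  rw [hG, hG]
  have e1 : I * (z + h * I) = I * z - h := by
    have := I_mul_I
    linear_combination (h : ℂ) * this
  have e2 : I * (z - h * I) = I * z + h := by
    have := I_mul_I
    linear_combination (-(h : ℂ)) * this
  rw [e1, e2]
  field_simp
  ring

theorem norm_inv_u {u : ℂ} (hu : ‖u‖ = 1) : ‖-u⁻¹‖ = 1 := by
  rw [norm_neg, norm_inv, hu, inv_one]

/-- nice zeros are regular -/
theorem reg_of_nice {F G : ℂ → ℂ} {v : ℂ} (hv : v ≠ 0) (hF : Differentiable ℂ F) (hG : ∀ z, G z = v * F (I * z))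
    {η : ℝ} {z : ℂ} (h : Nice κ η F (I * z)) : Reg κ η G z := by
  obtain ⟨h1, h2, y, h3, h4, h5, h6⟩ := h
  have e1 : (I * z).im = z.re := by simp
  have e2 : (I * z).re = -z.im := by simp
  rw [e2] at h1
  rw [e1] at h3 h6
  refine ⟨by linarith, ?_, y, h3, ?_, ?_, h6⟩
  · have hd : HasDerivAt G (v * (deriv F (I * z) * I)) z := by
      have h7 : HasDerivAt (fun z : ℂ => I * z) I z := by
        simpa using (hasDerivAt_id z).const_mul I
      have h8 : HasDerivAt (fun z : ℂ => F (I * z)) (deriv F (I * z) * I) z := (hF (I * z)).hasDerivAt.comp z h7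
      have h9 := h8.const_mul v
      have e : G = fun z => v * F (I * z) := funext hG
      rw [e]
      exact h9
    rw [hd.deriv]
    exact mul_ne_zero hv (mul_ne_zero h2 I_ne_zero)
  · rw [hG, mul_comm I, h4, mul_zero]
  · intro w hw hzw
    rw [hG] at hw
    have h7 := (mul_eq_zero.1 hw).resolve_left hv
    have h8 := h5 (I * w) h7 (by simpa using hzw)
    simpa using h8

theorem reg_mono {η η' : ℝ} {F : ℂ → ℂ} {z : ℂ} (hη : η ≤ η') (h : Reg κ η F z) : Reg κ η' F z := by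
  obtain ⟨h1, h2, x, h3, h4, h5, h6⟩ := h
  exact ⟨h1, h2, x, h3, h4, h5, h6.trans hη⟩

open Pool.Agent.Y771.NF.Cnt (num num_ge num_le fin_rot)

/-- **Equal spacing.** -/
theorem main {G : ℂ → ℂ} {v : ℂ} (hv : v ≠ 0) (hG : ∀ z, G z = v * X (I * z)) (g : LX κ H X Z) :
    (∀ (h : ℝ) (u : ℂ) (T : ℝ), 0 < h → ‖u‖ = 1 → (Zer (Av G h u) T).Finite) ∧
    (∃ c T0 : ℝ, 0 < c ∧ 2 ≤ T0 ∧ ∀ (h T : ℝ) (u : ℂ), T0 ≤ T → 1 / Real.log T ≤ h → h ≤ 1 → ‖u‖ = 1 →
      c * T * Real.log T ≤ num (Av G h u) (Zer (Av G h u) T)) ∧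
    ∀ η : ℝ, 0 < η → ∃ c C : ℝ, 0 < c ∧ 0 < C ∧ ∀ (h T : ℝ) (u : ℂ), 2 ≤ T → 0 < h → h ≤ 1 → ‖u‖ = 1 →
      (num (Av G h u) {z | z ∈ Zer (Av G h u) T ∧ ¬ Reg κ η (Av G h u) z} : ℝ) ≤
        C * T ^ (-(c * h)) * num (Av G h u) (Zer (Av G h u) T) := by
  have hb := base_of g
  have hu0 : ∀ u : ℂ, ‖u‖ = 1 → v * u ≠ 0 := fun u hu => mul_ne_zero hv fun h0 => by
    rw [h0, norm_zero] at hu
    norm_num at hu
  have hfin : ∀ (h : ℝ) (u : ℂ) (T : ℝ), 0 < h → ‖u‖ = 1 → (Zer (Av G h u) T).Finite := by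
    intro h u T hh hu
    have h1 := fin_rot (hu0 u hu) (hb.fs_diff h (-u⁻¹)) (fun z => av_eq hG hu h z)
      (fun s hs => hb.fs_strip hh (norm_inv_u hu) hs) 0 T
    exact h1.subset fun z hz => ⟨hz.1, hz.2.1.le, hz.2.2⟩
  have hinv : ∀ (h : ℝ) (u : ℂ) (T : ℝ), ‖u‖ = 1 → ∀ s : ℂ, Fs X h (-u⁻¹) s = 0 → 0 < s.im → s.im ≤ T →
      -I * s ∈ Zer (Av G h u) T := by
    intro h u T hu s h1 h2 h3
    refine ⟨?_, ?_, ?_⟩
    · rw [av_eq hG hu, Pool.Agent.Y771.NF.Cnt.rot_inv, h1, mul_zero]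
    · simpa using h2
    · simpa using h3
  refine ⟨hfin, ?_, ?_⟩
  · obtain ⟨c1, T0, hc1, hT0, htot⟩ := FF_tot g.sy g.cf g.half
    refine ⟨c1, T0, hc1, hT0, fun h T u hT hh hh1 hu => ?_⟩
    have hlT : 0 < Real.log T := Real.log_pos (by linarith)
    have hh0 : 0 < h := lt_of_lt_of_le (by positivity) hh
    obtain ⟨S', hS', hlow⟩ := htot h T (-u⁻¹) hT hh hh1 (norm_inv_u hu)
    refine hlow.trans ?_
    exact num_ge (hu0 u hu) (hb.fs_diff h (-u⁻¹)) (fun z => av_eq hG hu h z) (hfin h u T hh0 hu)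
      (fun s hs => hinv h u T hu s (hS' s hs).1 (hS' s hs).2.1 (hS' s hs).2.2)
  · intro η hη
    obtain ⟨c, C, hc, hC, hpr⟩ := prop_X g (η := min η 1) (by positivity) (min_le_right _ _)
    refine ⟨c, C, hc, hC, fun h T u hT hh hh1 hu => ?_⟩
    have hF := hfin h u T hh hu
    refine num_le (hu0 u hu) (hb.fs_diff h (-u⁻¹)) (fun z => av_eq hG hu h z) (hF.subset fun z hz => hz.1)
      (P := fun s => Fs X h (-u⁻¹) s = 0 ∧ 0 < s.im ∧ s.im ≤ T ∧ ¬ Nice κ (min η 1) (Fs X h (-u⁻¹)) s) ?_ ?_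
    · rintro z ⟨⟨h1, h2, h3⟩, h4⟩
      rw [av_eq hG hu] at h1
      refine ⟨(mul_eq_zero.1 h1).resolve_left (hu0 u hu), by simpa using h2, by simpa using h3, fun hn => h4 ?_⟩
      exact reg_mono (min_le_left _ _) (reg_of_nice (hu0 u hu) (hb.fs_diff h (-u⁻¹)) (fun z => av_eq hG hu h z) hn)
    · intro S hS
      obtain ⟨S', hS', h1⟩ := hpr T h (-u⁻¹) hT hh hh1 (norm_inv_u hu) S hS
      refine h1.trans ?_
      have hT0 : 0 < T := by linarith
      apply mul_le_mul_of_nonneg_left _ (by positivity)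
      exact num_ge (hu0 u hu) (hb.fs_diff h (-u⁻¹)) (fun z => av_eq hG hu h z) hF
        (fun s hs => hinv h u T hu s (hS' s hs).1 (hS' s hs).2.1 (hS' s hs).2.2)

/-! ## Relation to the zeros of `G` -/

/-- zeros of a limit -/
theorem hurwitz_disc {F : ℂ → ℂ} {z0 : ℂ} {ρ : ℝ} (hρ : 0 < ρ) (hF : Differentiable ℂ F) {m : ℝ} (hm : 0 < m)
    (hb : ∀ z ∈ sphere z0 ρ, m ≤ ‖F z‖) (h0 : ‖F z0‖ < m) : ∃ z ∈ closedBall z0 ρ, F z = 0 := by
  by_contra hcon
  push Not at hcon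
  have hd : DiffContOnCl ℂ (fun z => (F z)⁻¹) (ball z0 ρ) := by
    have h1 : DifferentiableOn ℂ (fun z => (F z)⁻¹) (closedBall z0 ρ) := by
      intro z hz
      exact ((hF z).inv (hcon z hz)).differentiableWithinAt
    refine ⟨h1.mono ball_subset_closedBall, ?_⟩
    rw [closure_ball _ hρ.ne']
    exact h1.continuousOn
  have h1 := Complex.norm_le_of_forall_mem_frontier_norm_le isBounded_ball hd (C := m⁻¹) (by
    intro z hz
    rw [frontier_ball _ hρ.ne'] at hz
    rw [norm_inv]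
    exact inv_anti₀ hm (hb z hz)) (subset_closure (mem_ball_self hρ))
  rw [norm_inv] at h1
  have h2 : 0 < ‖F z0‖ := norm_pos_iff.2 (hcon z0 (mem_closedBall_self hρ.le))
  have h3 := (inv_le_inv₀ h2 hm).1 h1
  linarith

theorem real_iff {G : ℂ → ℂ} {v : ℂ} (hv : v ≠ 0) (hG : ∀ z, G z = v * X (I * z)) (g : LX κ H X Z) :
    (∀ z : ℂ, G z = 0 → z.im = 0) ↔
      ∀ (h : ℝ) (u z : ℂ), 0 < h → ‖u‖ = 1 → Av G h u z = 0 → z.im = 0 := by
  have hsy := g.sy
  have hb := base_of g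
  constructor
  · intro hR h u z hh hu h0
    have hX : ∀ b : ℂ, X b = 0 → b.re = 0 := by
      intro b hb0
      have h1 := hR (-I * b) (by rw [hG, Pool.Agent.Y771.NF.Cnt.rot_inv, hb0, mul_zero])
      simpa using h1
    by_contra hz
    have hu0 : v * u ≠ 0 := mul_ne_zero hv fun h0 => by
      rw [h0, norm_zero] at hu
      norm_num at hu
    rw [av_eq hG hu] at h0
    have h1 := (mul_eq_zero.1 h0).resolve_left hu0
    obtain ⟨b, hb0, h2⟩ := hb.bad h (-u⁻¹) (I * z) hh (norm_inv_u hu) h1 (Or.inl (by simpa using hz))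
    rw [hX b hb0] at h2
    nlinarith [sq_nonneg (I * z).re, sq_nonneg ((I * z).im - b.im), pow_pos hh 2]
  · intro hR z0 hz0
    by_contra him
    have hGd : Differentiable ℂ G := by
      have e : G = fun z => v * X (I * z) := funext hG
      rw [e]
      have hXd := hsy.diff
      fun_prop
    have hGne : ∃ z, G z ≠ 0 := by
      refine ⟨-I * 1, ?_⟩
      rw [hG, Pool.Agent.Y771.NF.Cnt.rot_inv]
      exact mul_ne_zero hv hsy.ne_one
    -- an isolated zero
    have han : AnalyticOnNhd ℂ G Set.univ := fun z _ => hGd.analyticAt z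
    have hiso : ∀ᶠ z in 𝓝[≠] z0, G z ≠ 0 := by
      rcases (han z0 (Set.mem_univ _)).eventually_eq_zero_or_eventually_ne_zero with h | h
      · exfalso
        obtain ⟨z, hz'⟩ := hGne
        exact hz' (han.eqOn_zero_of_preconnected_of_eventuallyEq_zero isPreconnected_univ
          (Set.mem_univ z0) h (Set.mem_univ z))
      · exact h
    rw [eventually_nhdsWithin_iff, Metric.eventually_nhds_iff] at hiso
    obtain ⟨ε, hε, hiso⟩ := hiso
    obtain ⟨ρ, hρ⟩ : ∃ ρ : ℝ, ρ = min (ε / 2) (|z0.im| / 2) := ⟨_, rfl⟩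
    have him0 : 0 < |z0.im| := abs_pos.2 him
    have hρ0 : 0 < ρ := by rw [hρ]; positivity
    have hρε' : ρ ≤ ε / 2 := by rw [hρ]; exact min_le_left _ _
    have hρε : ρ < ε := by linarith
    have hρi' : ρ ≤ |z0.im| / 2 := by rw [hρ]; exact min_le_right _ _
    have hρi : ρ < |z0.im| := by linarith
    have hsph : ∀ z ∈ sphere z0 ρ, G z ≠ 0 := by
      intro z hz
      rw [mem_sphere] at hz
      refine hiso (by rw [hz]; exact hρε) ?_
      intro he
      rw [Set.mem_singleton_iff] at he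
      rw [he, dist_self] at hz
      linarith
    have hcomp : IsCompact (sphere z0 ρ) := isCompact_sphere z0 ρ
    have hnes : (sphere z0 ρ).Nonempty := NormedSpace.sphere_nonempty.2 hρ0.le
    obtain ⟨z1, hz1, hmin⟩ := hcomp.exists_isMinOn hnes (f := fun z => ‖G z‖) (hGd.continuous.norm.continuousOn)
    obtain ⟨m, hm⟩ : ∃ m : ℝ, m = ‖G z1‖ := ⟨_, rfl⟩
    have hm0 : 0 < m := by rw [hm]; exact norm_pos_iff.2 (hsph z1 hz1)
    -- uniform continuity
    have hK : IsCompact (closedBall z0 (ρ + 1)) := isCompact_closedBall _ _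
    have huc : UniformContinuousOn G (closedBall z0 (ρ + 1)) :=
      hK.uniformContinuousOn_of_continuous hGd.continuous.continuousOn
    rw [Metric.uniformContinuousOn_iff] at huc
    obtain ⟨δ, hδ, huc⟩ := huc (m / 4) (by positivity)
    obtain ⟨h, hh⟩ : ∃ h : ℝ, h = min (δ / 2) 1 := ⟨_, rfl⟩
    have hh0 : 0 < h := by rw [hh]; positivity
    have hhδ' : h ≤ δ / 2 := by rw [hh]; exact min_le_left _ _
    have hhδ : h < δ := by linarith
    have hh1 : h ≤ 1 := by rw [hh]; exact min_le_right _ _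
    have hnI : ‖(h : ℂ) * I‖ = h := by rw [norm_mul, Complex.norm_I, mul_one, Complex.norm_real, Real.norm_of_nonneg hh0.le]
    have hclose : ∀ z ∈ closedBall z0 ρ, ‖Av G h 1 z - 2 * G z‖ ≤ m / 2 := by
      intro z hz
      rw [mem_closedBall] at hz
      have h1 := huc (z + h * I) (by
        rw [mem_closedBall, dist_eq_norm]
        have e : z + h * I - z0 = (z - z0) + h * I := by ring
        rw [e]
        rw [dist_eq_norm] at hz
        exact (norm_add_le _ _).trans (by rw [hnI]; linarith)) z (by rw [mem_closedBall]; linarith) (by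
        rw [dist_eq_norm, add_sub_cancel_left, hnI]
        exact hhδ)
      have h2 := huc (z - h * I) (by
        rw [mem_closedBall, dist_eq_norm]
        have e : z - h * I - z0 = (z - z0) - h * I := by ring
        rw [e]
        rw [dist_eq_norm] at hz
        exact (norm_sub_le _ _).trans (by rw [hnI]; linarith)) z (by rw [mem_closedBall]; linarith) (by
        rw [dist_eq_norm, sub_sub_cancel_left, norm_neg, hnI]
        exact hhδ)
      rw [dist_eq_norm] at h1 h2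
      unfold Av
      have e : G (z + h * I) + 1 * G (z - h * I) - 2 * G z = (G (z + h * I) - G z) + (G (z - h * I) - G z) := by ring
      rw [e]
      exact (norm_add_le _ _).trans (by linarith)
    have hAd : Differentiable ℂ (Av G h 1) := by
      unfold Av
      have h1 : Differentiable ℂ (fun z : ℂ => G (z + h * I)) := hGd.comp (by fun_prop)
      have h2 : Differentiable ℂ (fun z : ℂ => G (z - h * I)) := hGd.comp (by fun_prop)
      exact h1.add (h2.const_mul 1)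
    obtain ⟨z, hz, hz0'⟩ := hurwitz_disc (F := Av G h 1) (z0 := z0) hρ0 hAd (m := m) hm0 (by
      intro z hz
      have h1 := hclose z (sphere_subset_closedBall hz)
      have h2 : m ≤ ‖G z‖ := by rw [hm]; exact hmin hz
      have h3 := norm_sub_norm_le (2 * G z) (2 * G z - Av G h 1 z)
      have e : 2 * G z - (2 * G z - Av G h 1 z) = Av G h 1 z := by ring
      rw [e, norm_mul, norm_sub_rev] at h3
      have e2 : ‖(2 : ℂ)‖ = 2 := by norm_num
      rw [e2] at h3
      linarith) (by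
      have h1 := hclose z0 (mem_closedBall_self hρ0.le)
      rw [hz0, mul_zero, sub_zero] at h1
      linarith)
    have h1 := hR h 1 z hh0 (by simp) hz0'
    rw [mem_closedBall, dist_eq_norm] at hz
    have h2 := (Complex.abs_im_le_norm (z - z0)).trans hz
    rw [Complex.sub_im, h1, zero_sub, abs_neg] at h2
    linarith

end Pool.Agent.Q278.ES
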