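import Pool.Agent.H24R2.DZ.Spec
import Pool.Agent.W186.LH.Fac

set_option autoImplicit false

/-!
# The number of zeros of `X(z + s) - ω X(z - s)` at a good height
-/

namespace Pool.Agent.Q278.ES

open Complex Set Metric
open Pool.Agent.H24R2.DZ (NN)
open scoped ComplexConjugate

/-- integration of the logarithmic derivative along a segment -/
theorem seg {F : ℂ → ℂ} (hF : Differentiable ℂ F) {a e : ℝ} {p q : ℂ} {S : Set ℂ} (hS : Convex ℝ S)
    (hp : p ∈ S) (hq : q ∈ S) (h : ∀ w ∈ S, F w ≠ 0 ∧ ‖logDeriv F w - a‖ ≤ e) :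
    ‖F q‖ ≤ ‖F p‖ * Real.exp (a * (q.re - p.re) + e * ‖q - p‖) := by
  obtain ⟨ψ, hψ⟩ : ∃ ψ : ℝ → ℂ, ψ = fun t : ℝ => F (p + t * (q - p)) * cexp (-(a * (t * (q - p)))) := ⟨_, rfl⟩
  have hmem : ∀ t : ℝ, 0 ≤ t → t ≤ 1 → p + t * (q - p) ∈ S := by
    intro t ht0 ht1
    have := hS hp hq (by linarith : 0 ≤ 1 - t) ht0 (by ring)
    convert this using 1
    simp only [real_smul]
    push_cast
    ring
  have hline : ∀ t : ℝ, HasDerivAt (fun t : ℝ => p + (t : ℂ) * (q - p)) (q - p) t := by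
    intro t
    have h1 : HasDerivAt (fun t : ℝ => (t : ℂ)) 1 t := Complex.ofRealCLM.hasDerivAt
    have h2 := (h1.mul_const (q - p)).const_add p
    simpa using h2
  have hder : ∀ t : ℝ, HasDerivAt ψ ((deriv F (p + t * (q - p)) * (q - p)) * cexp (-(a * (t * (q - p)))) +
      F (p + t * (q - p)) * (cexp (-(a * (t * (q - p)))) * (-(a * (q - p))))) t := by
    intro t
    rw [hψ]
    have h1 : HasDerivAt (fun t : ℝ => F (p + t * (q - p))) (deriv F (p + t * (q - p)) * (q - p)) t :=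
      (hF (p + t * (q - p))).hasDerivAt.comp t (hline t)
    have h2 : HasDerivAt (fun t : ℝ => -((a : ℂ) * (t * (q - p)))) (-(a * (q - p))) t := by
      have h3 : HasDerivAt (fun t : ℝ => (t : ℂ)) 1 t := Complex.ofRealCLM.hasDerivAt
      have h4 := ((h3.mul_const (q - p)).const_mul (a : ℂ)).fun_neg
      simpa using h4
    exact h1.mul h2.cexp
  have hcont : ContinuousOn ψ (Icc 0 1) := fun t _ => (hder t).continuousAt.continuousWithinAt
  have hbd : ∀ t ∈ Ico (0 : ℝ) 1, ‖(deriv F (p + t * (q - p)) * (q - p)) * cexp (-(a * (t * (q - p)))) +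
      F (p + t * (q - p)) * (cexp (-(a * (t * (q - p)))) * (-(a * (q - p))))‖ ≤ e * ‖q - p‖ * ‖ψ t‖ + 0 := by
    intro t ht
    obtain ⟨h1, h2⟩ := h _ (hmem t ht.1 ht.2.le)
    have e1 : (deriv F (p + t * (q - p)) * (q - p)) * cexp (-(a * (t * (q - p)))) +
      F (p + t * (q - p)) * (cexp (-(a * (t * (q - p)))) * (-(a * (q - p)))) =
        (logDeriv F (p + t * (q - p)) - a) * (q - p) * ψ t := by
      rw [hψ, logDeriv_apply]
      simp only
      field_simp
      ring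
    rw [e1, norm_mul, norm_mul, add_zero]
    gcongr
  have h1 := norm_le_gronwallBound_of_norm_deriv_right_le hcont (fun t ht => (hder t).hasDerivWithinAt)
    (le_refl ‖ψ 0‖) hbd 1 ⟨zero_le_one, le_rfl⟩
  rw [gronwallBound_ε0, sub_zero, mul_one] at h1
  have h2 : ‖ψ 0‖ = ‖F p‖ := by rw [hψ]; simp
  have h3 : ‖ψ 1‖ = ‖F q‖ * Real.exp (-(a * (q.re - p.re))) := by
    rw [hψ]
    simp only [Complex.ofReal_one, one_mul, add_sub_cancel, norm_mul, Complex.norm_exp]
    congr 2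
    simp
  rw [h2, h3] at h1
  calc ‖F q‖ = ‖F q‖ * Real.exp (-(a * (q.re - p.re))) * Real.exp (a * (q.re - p.re)) := by
        rw [mul_assoc, ← Real.exp_add]
        simp
    _ ≤ ‖F p‖ * Real.exp (e * ‖q - p‖) * Real.exp (a * (q.re - p.re)) := by gcongr
    _ = _ := by rw [mul_assoc, ← Real.exp_add]; ring_nf

/-- the half disc -/
theorem half_convex : Convex ℝ {z : ℂ | 1 / 1000 ≤ z.re ∧ ‖z‖ ≤ 20} := by
  have h1 : Convex ℝ {z : ℂ | 1 / 1000 ≤ z.re} := convex_halfSpace_re_ge _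
  have h2 : Convex ℝ {z : ℂ | ‖z‖ ≤ 20} := by
    have := convex_closedBall (0 : ℂ) 20
    have e : {z : ℂ | ‖z‖ ≤ 20} = closedBall (0 : ℂ) 20 := by
      ext z
      simp
    rw [e]
    exact this
  exact h1.inter h2

theorem nn_up {a η : ℝ} {F : ℂ → ℂ} (hN : NN a η F) (ha : 0 ≤ a) (hη : η ≤ 1) {v : ℝ} (hv : 4 ≤ v)
    (hv5 : v ≤ 5) {w : ℂ} (hw : ‖w‖ ≤ 19) : ‖F w‖ ≤ Real.exp (50 * a) * ‖F v‖ := by
  have hvS : (v : ℂ) ∈ {z : ℂ | 1 / 1000 ≤ z.re ∧ ‖z‖ ≤ 20} := by
    refine ⟨by simp; linarith, ?_⟩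
    rw [Complex.norm_real, Real.norm_of_nonneg (by linarith)]
    linarith
  have key : ∀ w : ℂ, ‖w‖ ≤ 19 → 1 / 1000 ≤ w.re → ‖F w‖ ≤ Real.exp (50 * a) * ‖F v‖ := by
    intro w hw h0
    have h1 := seg hN.diff half_convex hvS (show w ∈ {z : ℂ | 1 / 1000 ≤ z.re ∧ ‖z‖ ≤ 20} from ⟨h0, by linarith⟩)
      (fun z hz => hN.far z hz.1 hz.2)
    have h2 : w.re ≤ 19 := (Complex.re_le_norm w).trans hw
    have h3 : ‖w - v‖ ≤ 24 := by
      refine (norm_sub_le _ _).trans ?_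
      rw [Complex.norm_real, Real.norm_of_nonneg (by linarith)]
      linarith
    rw [mul_comm]
    refine h1.trans ?_
    gcongr
    rw [Complex.ofReal_re]
    have h4 : η * a ≤ a := by nlinarith
    have h5 : η * a * ‖w - v‖ ≤ a * 24 := by
      calc η * a * ‖w - v‖ ≤ a * ‖w - v‖ := mul_le_mul_of_nonneg_right h4 (norm_nonneg _)
        _ ≤ _ := by gcongr
    nlinarith
  rcases le_or_gt (1 / 1000) w.re with h0 | h0
  · exact key w hw h0
  · rcases le_or_gt w.re (-(1 / 1000)) with h1 | h1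
    · have h2 := key (-(conj w)) (by rwa [norm_neg, Complex.norm_conj]) (by
        rw [Complex.neg_re, Complex.conj_re]
        linarith)
      have h3 := hN.symm w
      rw [h3, Complex.norm_conj] at h2
      exact h2
    · have h2 := hN.near w (abs_le.2 ⟨by linarith, by linarith⟩) (by linarith)
      have h3 := key 1 (by norm_num) (by norm_num)
      refine h2.trans (le_trans ?_ h3)
      have : Real.exp (-(9 / 10 * a)) ≤ 1 := Real.exp_le_one_iff.2 (by linarith)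
      nlinarith [norm_nonneg (F 1)]

/-- **The count at a good height.** -/
theorem nn_count {X : ℂ → ℂ} (hX : Differentiable ℂ X) {a η r t0 s : ℝ} {ω : ℂ} (ha : 1 ≤ a)
    (hη : η ≤ 1 / 4) (hr : 0 < r) (hs : 0 < s) (hsr : s ≤ r) (hsa : 1 ≤ s / r * a) (hω : ‖ω‖ = 1)
    (hN : NN a η (fun z => X (I * t0 + r * z))) (S : Finset ℂ) (hS : ∀ z ∈ S, ‖z - I * t0‖ ≤ 2 * r) :
    ∑ z ∈ S, (analyticOrderNatAt (fun z => X (z + s) - ω * X (z - s)) z : ℝ) ≤ 80 * a := by
  obtain ⟨σ, hσ⟩ : ∃ σ : ℝ, σ = s / r := ⟨_, rfl⟩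
  have hσ0 : 0 < σ := by rw [hσ]; positivity
  have hσ1 : σ ≤ 1 := by rw [hσ, div_le_one hr]; exact hsr
  have hsσ : s = r * σ := by rw [hσ]; field_simp
  rw [← hσ] at hsa
  obtain ⟨N, hNd⟩ : ∃ N : ℂ → ℂ, N = fun z => X (I * t0 + r * z) := ⟨_, rfl⟩
  rw [← hNd] at hN
  have hXN : ∀ z : ℂ, X (I * t0 + r * z) = N z := fun z => by rw [hNd]
  have hFd : Differentiable ℂ (fun z : ℂ => X (z + s) - ω * X (z - s)) := by
    have h1 : Differentiable ℂ (fun z : ℂ => X (z + s)) := hX.comp (by fun_prop)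
    have h2 : Differentiable ℂ (fun z : ℂ => X (z - s)) := hX.comp (by fun_prop)
    exact h1.sub (h2.const_mul ω)
  have hval : ∀ w : ℂ, X (I * t0 + r * w + s) - ω * X (I * t0 + r * w - s) = N (w + σ) - ω * N (w - σ) := by
    intro w
    rw [← hXN, ← hXN, hsσ]
    push_cast
    congr 2
    · ring
    · congr 1
      ring
  obtain ⟨A, hA⟩ : ∃ A : ℝ, A = ‖N ((4 + σ : ℝ) : ℂ)‖ := ⟨_, rfl⟩
  have hmem : ∀ v : ℝ, 3 ≤ v → v ≤ 5 → (v : ℂ) ∈ {z : ℂ | 1 / 1000 ≤ z.re ∧ ‖z‖ ≤ 20} := by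
    intro v h1 h2
    refine ⟨by simp; linarith, ?_⟩
    rw [Complex.norm_real, Real.norm_of_nonneg (by linarith)]
    linarith
  have hA0 : 0 < A := by
    rw [hA]
    have := hmem (4 + σ) (by linarith) (by linarith)
    exact norm_pos_iff.2 (hN.far _ this.1 this.2).1
  -- the value at the centre
  have hlow : A / 2 ≤ ‖X (I * t0 + r * 4 + s) - ω * X (I * t0 + r * 4 - s)‖ := by
    rw [hval 4]
    have h1 := seg hN.diff half_convex (hmem (4 + σ) (by linarith) (by linarith))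
      (hmem (4 - σ) (by linarith) (by linarith)) (fun z hz => hN.far z hz.1 hz.2)
    rw [← hA] at h1
    have e1 : (((4 - σ : ℝ) : ℂ)).re - (((4 + σ : ℝ) : ℂ)).re = -(2 * σ) := by
      rw [Complex.ofReal_re, Complex.ofReal_re]; ring
    have e2 : ‖((4 - σ : ℝ) : ℂ) - ((4 + σ : ℝ) : ℂ)‖ = 2 * σ := by
      rw [← Complex.ofReal_sub, Complex.norm_real]
      have : (4 - σ - (4 + σ) : ℝ) = -(2 * σ) := by ring
      rw [this, norm_neg, Real.norm_of_nonneg (by linarith)]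
    rw [e1, e2] at h1
    have h2 : a * -(2 * σ) + η * a * (2 * σ) ≤ -1 := by
      have h3 : η * (a * σ) ≤ 1 / 4 * (a * σ) := mul_le_mul_of_nonneg_right hη (by positivity)
      nlinarith
    have h3 : Real.exp (-1 : ℝ) ≤ 1 / 2 := by
      rw [Real.exp_neg]
      have := Real.add_one_le_exp (1 : ℝ)
      have h4 : (2 : ℝ) ≤ Real.exp 1 := by linarith
      rw [one_div]
      gcongr
    have h4 : ‖N ((4 - σ : ℝ) : ℂ)‖ ≤ A * (1 / 2) := by
      refine h1.trans ?_
      gcongr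
      exact (Real.exp_le_exp.2 h2).trans h3
    have e3 : (4 + σ : ℂ) = ((4 + σ : ℝ) : ℂ) := by push_cast; ring
    have e4 : (4 - σ : ℂ) = ((4 - σ : ℝ) : ℂ) := by push_cast; ring
    rw [e3, e4]
    have h5 := norm_sub_norm_le (N ((4 + σ : ℝ) : ℂ)) (ω * N ((4 - σ : ℝ) : ℂ))
    rw [norm_mul, hω, one_mul, ← hA] at h5
    linarith
  have hne : X (I * t0 + r * 4 + s) - ω * X (I * t0 + r * 4 - s) ≠ 0 := by
    rw [← norm_pos_iff]
    linarith
  have hup : ∀ u ∈ sphere (I * t0 + r * 4 : ℂ) (12 * r), ‖X (u + s) - ω * X (u - s)‖ ≤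
      2 * (Real.exp (50 * a) * A) := by
    intro u hu
    rw [mem_sphere_iff_norm] at hu
    obtain ⟨w, hw⟩ : ∃ w : ℂ, w = (u - I * t0) / r := ⟨_, rfl⟩
    have hrc : (r : ℂ) ≠ 0 := by exact_mod_cast hr.ne'
    have hu2 : u = I * t0 + r * w := by rw [hw]; field_simp; ring
    have hw1 : ‖w - 4‖ = 12 := by
      have h1 : u - (I * t0 + r * 4) = r * (w - 4) := by rw [hu2]; ring
      rw [h1, norm_mul, Complex.norm_real, Real.norm_of_nonneg hr.le] at hu
      have : r * ‖w - 4‖ = r * 12 := by linarith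
      exact mul_left_cancel₀ hr.ne' this
    have hσn : ‖(σ : ℂ)‖ ≤ 1 := by rw [Complex.norm_real, Real.norm_of_nonneg hσ0.le]; exact hσ1
    have hw2 : ‖w‖ ≤ 16 := by
      calc ‖w‖ = ‖(w - 4) + 4‖ := by ring_nf
        _ ≤ ‖w - 4‖ + ‖(4 : ℂ)‖ := norm_add_le _ _
        _ = 16 := by rw [hw1]; norm_num
    rw [hu2, hval w]
    have h1 : ‖N (w + σ)‖ ≤ Real.exp (50 * a) * A := by
      rw [hA]
      refine nn_up hN (by linarith) (by linarith) (by linarith) (by linarith) ?_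
      exact (norm_add_le _ _).trans (by linarith)
    have h2 : ‖N (w - σ)‖ ≤ Real.exp (50 * a) * A := by
      rw [hA]
      refine nn_up hN (by linarith) (by linarith) (by linarith) (by linarith) ?_
      exact (norm_sub_le _ _).trans (by linarith)
    refine (norm_sub_le _ _).trans ?_
    rw [norm_mul, hω, one_mul]
    linarith
  have hjc := Pool.Agent.W186.LH.jc hFd (c := I * t0 + r * 4) (r := 6 * r) (R := 12 * r)
    (M := 2 * (Real.exp (50 * a) * A)) (by positivity) (by linarith) hup hne S (by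
      intro z hz
      have h1 := hS z hz
      rw [mem_closedBall, dist_eq_norm]
      have e : z - (I * t0 + r * 4) = (z - I * t0) - r * 4 := by ring
      rw [e]
      refine (norm_sub_le _ _).trans ?_
      rw [norm_mul, Complex.norm_real, Real.norm_of_nonneg hr.le]
      have : ‖(4 : ℂ)‖ = 4 := by norm_num
      rw [this]
      linarith)
  have e : (12 * r / (6 * r) : ℝ) = 2 := by field_simp; norm_num
  rw [e] at hjc
  obtain ⟨n, hn⟩ : ∃ n : ℕ, n = ∑ z ∈ S, analyticOrderNatAt (fun z => X (z + s) - ω * X (z - s)) z := ⟨_, rfl⟩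
  rw [← hn] at hjc
  have hnr : ∑ z ∈ S, (analyticOrderNatAt (fun z => X (z + s) - ω * X (z - s)) z : ℝ) = n := by
    rw [hn]
    push_cast
    rfl
  rw [hnr]
  have h1 : (2 : ℝ) ^ n ≤ 4 * Real.exp (50 * a) := by
    refine le_of_mul_le_mul_right ?_ hA0
    have h2 : (2 : ℝ) ^ n * (A / 2) ≤ 2 * (Real.exp (50 * a) * A) := by
      refine le_trans ?_ hjc
      gcongr
    linarith
  have h2 : (n : ℝ) * Real.log 2 ≤ 2 * Real.log 2 + 50 * a := by
    have h3 := Real.log_le_log (by positivity) h1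
    rw [Real.log_pow, Real.log_mul (by norm_num) (Real.exp_pos _).ne', Real.log_exp] at h3
    have h4 : Real.log 4 = 2 * Real.log 2 := by
      rw [show (4 : ℝ) = 2 ^ 2 by norm_num, Real.log_pow]
      norm_num
    rw [h4] at h3
    exact h3
  have h3 : (0.69 : ℝ) < Real.log 2 := by
    have := Real.log_two_gt_d9
    linarith
  have h4 : Real.log 2 < 0.7 := by
    have := Real.log_two_lt_d9
    linarith
  have hn0 : (0 : ℝ) ≤ n := Nat.cast_nonneg _
  nlinarith

end Pool.Agent.Q278.ES
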