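import Pool.Agent.Q278.ES.A
import Pool.Agent.Q278.ES.B
import Pool.Agent.Y671.GL.Spec2

set_option autoImplicit false

/-!
# Heights at which the zeros of `X(z + s) - ω X(z - s)` are nice
-/

namespace Pool.Agent.Q278.ES

open Complex Set Metric
open Pool.Agent.H24R2.DZ (NN)
open Pool.Agent.Y671.GL (FarL GoodX TopL)
open scoped ComplexConjugate

/-- the combination -/
noncomputable def Fs (X : ℂ → ℂ) (s : ℝ) (ω : ℂ) (z : ℂ) : ℂ := X (z + s) - ω * X (z - s)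

/-- Most points are good at all scales (scale `a = κ r log T`). -/
def GoodE (κ : ℝ) (X : ℂ → ℂ) : Prop := ∀ η : ℝ, 0 < η → ∃ c C a0 T0 : ℝ, 0 < c ∧ 0 < C ∧ 1 ≤ a0 ∧ 2 ≤ T0 ∧
  ∀ T a r : ℝ, T0 ≤ T → a0 ≤ a → 0 < r → r ≤ 1 / 100 → κ * r ≤ 1 / 100 → κ * r * Real.log T = a →
    MeasureTheory.volume {t0 : ℝ | T / 2 ≤ t0 ∧ t0 ≤ 3 * T ∧ ¬ NN a η (fun z => X (I * t0 + r * z))} ≤
      ENNReal.ofReal (C * T * Real.exp (-(c * a)))

theorem goodE {κ : ℝ} {X : ℂ → ℂ} (h : GoodX κ X) : GoodE κ X := by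
  intro η hη
  obtain ⟨c, C, a0, T0, h1, h2, h3, h4, h5⟩ := h η hη
  refine ⟨c, C, a0, T0, h1, h2, h3, h4, fun T a r g1 g2 g3 g4 g5 g6 => h5 T a r g1 g2 g3 g4 g5 ?_⟩
  rw [g6, sub_self, abs_zero]
  norm_num

/-- The hypotheses. -/
structure Base (κ : ℝ) (X : ℂ → ℂ) : Prop where
  κ_pos : 0 < κ
  diff : Differentiable ℂ X
  symm : ∀ z : ℂ, X (-(conj z)) = conj (X z)
  strip : ∀ b, X b = 0 → |b.re| ≤ 1 / 2
  bad : ∀ (s : ℝ) (ω z : ℂ), 0 < s → ‖ω‖ = 1 → Fs X s ω z = 0 → (z.re ≠ 0 ∨ deriv (Fs X s ω) z = 0) →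
    ∃ b : ℂ, X b = 0 ∧ z.re ^ 2 + s ^ 2 + (z.im - b.im) ^ 2 ≤ b.re ^ 2
  cnt : ∃ K : ℝ, 0 < K ∧ ∀ (s t : ℝ) (ω : ℂ), 0 < s → s ≤ 1 → ‖ω‖ = 1 → -1 ≤ t →
    ∀ S : Finset ℂ, (∀ z ∈ S, |z.re| ≤ 1 / 2 ∧ |z.im - t| ≤ 1 / 2) →
    ∑ z ∈ S, (analyticOrderNatAt (Fs X s ω) z : ℝ) ≤ K * (Real.log (3 + t) + Real.log (1 / s))
  good : GoodE κ X
  top : TopL κ X

variable {κ : ℝ} {X : ℂ → ℂ}

theorem Base.fs_diff (h : Base κ X) (s : ℝ) (ω : ℂ) : Differentiable ℂ (Fs X s ω) := by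
  have h1 : Differentiable ℂ (fun z : ℂ => X (z + s)) := h.diff.comp (by fun_prop)
  have h2 : Differentiable ℂ (fun z : ℂ => X (z - s)) := h.diff.comp (by fun_prop)
  exact h1.sub (h2.const_mul ω)

/-- zeros of the combination are in the strip -/
theorem Base.fs_strip (h : Base κ X) {s : ℝ} (hs : 0 < s) {ω : ℂ} (hω : ‖ω‖ = 1) {z : ℂ}
    (h0 : Fs X s ω z = 0) : |z.re| ≤ 1 / 2 := by
  by_cases h1 : z.re = 0
  · rw [h1, abs_zero]
    norm_num
  · obtain ⟨b, hb, h2⟩ := h.bad s ω z hs hω h0 (Or.inl h1)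
    have h3 := h.strip b hb
    have h4 : z.re ^ 2 ≤ b.re ^ 2 := by nlinarith [sq_nonneg s, sq_nonneg (z.im - b.im)]
    exact (sq_le_sq.1 h4).trans h3

/-- Absence of far zeros gives nice zeros. -/
theorem Base.nice (h : Base κ X) {s D L e : ℝ} {ω z : ℂ} (hs : 0 < s) (hω : ‖ω‖ = 1) (hD0 : 0 < D)
    (he0 : 0 ≤ e) (he : e < L) (hD : Real.pi < (L - e) * D)
    (hX : ∀ y : ℝ, z.im ≤ y → y ≤ z.im + D → X ((s : ℂ) + y * I) ≠ 0 ∧
      |(logDeriv X ((s : ℂ) + y * I)).re - L| ≤ e)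
    (hb : ∀ b : ℂ, X b = 0 → s ≤ |b.re| → |b.im - z.im| ≤ |b.re| + D → False)
    (h0 : Fs X s ω z = 0) :
    z.re = 0 ∧ deriv (Fs X s ω) z ≠ 0 ∧ ∃ y1 : ℝ, z.im < y1 ∧ Fs X s ω (y1 * I) = 0 ∧
      (∀ w : ℂ, Fs X s ω w = 0 → z.im < w.im → y1 ≤ w.im) ∧
      (L - e) * (y1 - z.im) ≤ Real.pi ∧ Real.pi ≤ (L + e) * (y1 - z.im) := by
  have key : ∀ w : ℂ, Fs X s ω w = 0 → |w.im - z.im| ≤ D → w.re = 0 ∧ deriv (Fs X s ω) w ≠ 0 := by
    intro w hw hwD
    by_contra hcon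
    have hcon2 : w.re ≠ 0 ∨ deriv (Fs X s ω) w = 0 := by
      by_cases h1 : w.re = 0
      · right
        by_contra h2
        exact hcon ⟨h1, h2⟩
      · left
        exact h1
    obtain ⟨b, hb0, h2⟩ := h.bad s ω w hs hω hw hcon2
    have h3 : s ^ 2 ≤ b.re ^ 2 := by nlinarith [sq_nonneg w.re, sq_nonneg (w.im - b.im)]
    have h4 : (w.im - b.im) ^ 2 ≤ b.re ^ 2 := by nlinarith [sq_nonneg w.re, sq_nonneg s]
    have h5 := sq_le_sq.1 h3
    have h6 := sq_le_sq.1 h4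
    rw [abs_of_pos hs] at h5
    refine hb b hb0 h5 ?_
    have e1 : b.im - z.im = (w.im - z.im) - (w.im - b.im) := by ring
    rw [e1]
    exact (abs_sub _ _).trans (by linarith)
  have hz := key z h0 (by rw [sub_self, abs_zero]; exact hD0.le)
  have ez : z = (z.im : ℂ) * I := by
    apply Complex.ext <;> simp [hz.1]
  have h00 : X ((z.im : ℂ) * I + s) - ω * X ((z.im : ℂ) * I - s) = 0 := by
    rw [← ez]
    exact h0
  obtain ⟨y1, h1, h2, h3, h4, h5, h6⟩ := next_zero h.diff h.symm he he0 hD0 hD hX h00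
  refine ⟨hz.1, hz.2, y1, h1, h3, ?_, h5, h6⟩
  intro w hw hzw
  by_contra hlt
  push Not at hlt
  have h7 := key w hw (by rw [abs_le]; constructor <;> linarith)
  have ew : w = (w.im : ℂ) * I := by
    apply Complex.ext <;> simp [h7.1]
  refine h4 w.im hzw hlt ?_
  rw [← ew]
  exact hw

/-- a good height at scale `r` near `y` -/
def Gd (X : ℂ → ℂ) (a η r y : ℝ) : Prop := ∃ t' : ℝ, |y - t'| ≤ r / 100 ∧ NN a η (fun z => X (I * t' + r * z))

/-- no zeros of `X` at good heights -/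
theorem Base.gd_ne (h : Base κ X) {a η r y : ℝ} (hr : 0 < r) (hg : Gd X a η r y) {b : ℂ} (hb : X b = 0)
    (h1 : r ≤ |b.re|) (h2 : |b.re| ≤ 2 * r) (h3 : |b.im - y| ≤ |b.re| + r) : False := by
  obtain ⟨t', ht', hN⟩ := hg
  have key : ∀ b : ℂ, X b = 0 → r ≤ b.re → b.re ≤ 2 * r → |b.im - y| ≤ b.re + r → False := by
    intro b hb h1 h2 h3
    have hrc : (r : ℂ) ≠ 0 := by exact_mod_cast hr.ne'
    obtain ⟨z, hz⟩ : ∃ z : ℂ, z = (b - I * t') / r := ⟨_, rfl⟩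
    have hbz : I * t' + r * z = b := by rw [hz]; field_simp; ring
    have hre : b.re = r * z.re := by rw [← hbz]; simp
    have him : b.im = t' + r * z.im := by rw [← hbz]; simp
    have hzre : 1 ≤ z.re := by
      rw [hre] at h1
      have : r * 1 ≤ r * z.re := by linarith
      exact le_of_mul_le_mul_left this hr
    have hzre2 : z.re ≤ 2 := by
      rw [hre] at h2
      have : r * z.re ≤ r * 2 := by linarith
      exact le_of_mul_le_mul_left this hr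
    have hzim : |z.im| ≤ 4 := by
      have h4 : |r * z.im| ≤ r * 4 := by
        have e : r * z.im = (b.im - y) + (y - t') := by rw [him]; ring
        rw [e]
        exact (abs_add_le _ _).trans (by linarith)
      rw [abs_mul, abs_of_pos hr] at h4
      exact le_of_mul_le_mul_left h4 hr
    have h5 := (hN.far z (by linarith) (by
      refine (Complex.norm_le_abs_re_add_abs_im z).trans ?_
      rw [abs_of_pos (by linarith : 0 < z.re)]
      linarith)).1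
    rw [hbz] at h5
    exact h5 hb
  rcases le_total 0 b.re with h0 | h0
  · rw [abs_of_nonneg h0] at h1 h2 h3
    exact key b hb h1 h2 h3
  · rw [abs_of_nonpos h0] at h1 h2 h3
    refine key (-(conj b)) ?_ ?_ ?_ ?_
    · rw [h.symm, hb, map_zero]
    · simpa using h1
    · simpa using h2
    · simpa using h3

/-- a height near `y` with no zeros far from the line -/
def Fr (κ : ℝ) (X : ℂ → ℂ) (ε0 η y : ℝ) : Prop := ∃ t' : ℝ, |y - t'| ≤ 1 / 100 ∧ FarL κ X 3 ε0 η t'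

theorem Base.fr_ne (h : Base κ X) {ε0 η y : ℝ} (hg : Fr κ X ε0 η y) {b : ℂ} (hb : X b = 0)
    (h1 : ε0 ≤ |b.re|) (h3 : |b.im - y| ≤ |b.re| + 1) : False := by
  obtain ⟨t', ht', hN⟩ := hg
  have key : ∀ b : ℂ, X b = 0 → ε0 ≤ b.re → 0 ≤ b.re → |b.im - y| ≤ b.re + 1 → False := by
    intro b hb h1 h2 h3
    have h4 := h.strip b hb
    rw [abs_of_nonneg h2] at h4
    refine (hN (b - I * t') (by simpa using h1) ?_).1 ?_
    · refine (Complex.norm_le_abs_re_add_abs_im _).trans ?_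
      have e1 : (b - I * t').re = b.re := by simp
      have e2 : (b - I * t').im = (b.im - y) + (y - t') := by simp
      rw [e1, e2, abs_of_nonneg h2]
      have := abs_add_le (b.im - y) (y - t')
      linarith
    · rw [add_sub_cancel]
      exact hb
  rcases le_total 0 b.re with h0 | h0
  · rw [abs_of_nonneg h0] at h1 h3
    exact key b hb h1 h0 h3
  · rw [abs_of_nonpos h0] at h1 h3
    refine key (-(conj b)) ?_ ?_ ?_ ?_
    · rw [h.symm, hb, map_zero]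
    · simpa using h1
    · simpa using h0
    · simpa using h3

/-- **No far zeros**: the scales from `j` to `J` are good near `y`. -/
theorem Base.no_far (h : Base κ X) {a η η' s s1 y : ℝ} {j J : ℕ} (hs : 0 < s) (hs1 : s1 ≤ 1)
    (hJ : s1 / 2 < 2 ^ J * s) (hjJ : 2 ^ j * s ≤ s1)
    (hg : ∀ i : ℕ, j ≤ i → i ≤ J → Gd X (2 ^ i * a) η (2 ^ i * s) y) (hf : Fr κ X (s1 / 4) η' y) {b : ℂ}
    (hb : X b = 0) (h1 : 2 ^ j * s ≤ |b.re|) (h3 : |b.im - y| ≤ |b.re| + 2 ^ j * s) : False := by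
  rcases le_or_gt (s1 / 4) |b.re| with h4 | h4
  · exact h.fr_ne hf hb h4 (by linarith)
  · have h2j : (1 : ℝ) ≤ 2 ^ j := one_le_pow₀ (by norm_num)
    have hx : 1 ≤ |b.re| / s := by
      rw [le_div_iff₀ hs]
      nlinarith
    obtain ⟨i, hi1, hi2⟩ := exists_nat_pow_near hx (by norm_num : (1 : ℝ) < 2)
    rw [le_div_iff₀ hs] at hi1
    rw [div_lt_iff₀ hs] at hi2
    have hij : j ≤ i := by
      have h5 : (2 : ℝ) ^ j * s < 2 ^ (i + 1) * s := lt_of_le_of_lt h1 hi2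
      have h6 : (2 : ℝ) ^ j < 2 ^ (i + 1) := lt_of_mul_lt_mul_right h5 hs.le
      have h7 := (pow_lt_pow_iff_right₀ (by norm_num : (1 : ℝ) < 2)).1 h6
      omega
    have hiJ : i ≤ J := by
      have h5 : (2 : ℝ) ^ i * s < 2 ^ J * s := by
        have hb0 := abs_nonneg b.re
        linarith
      have h6 : (2 : ℝ) ^ i < 2 ^ J := lt_of_mul_lt_mul_right h5 hs.le
      exact ((pow_lt_pow_iff_right₀ (by norm_num : (1 : ℝ) < 2)).1 h6).le
    have h2i : (2 : ℝ) ^ j ≤ 2 ^ i := pow_le_pow_right₀ (by norm_num) hij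
    refine h.gd_ne (r := 2 ^ i * s) (by positivity) (hg i hij hiJ) hb hi1 ?_ ?_
    · rw [pow_succ] at hi2
      linarith
    · have : (2 : ℝ) ^ j * s ≤ 2 ^ i * s := mul_le_mul_of_nonneg_right h2i hs.le
      linarith

/-- position of the zeros -/
theorem Base.re_le (h : Base κ X) {a η η' s s1 : ℝ} {ω z : ℂ} {j J : ℕ} (hs : 0 < s) (hs1 : s1 ≤ 1)
    (hω : ‖ω‖ = 1) (hJ : s1 / 2 < 2 ^ J * s) (hjJ : 2 ^ j * s ≤ s1)
    (hg : ∀ i : ℕ, j ≤ i → i ≤ J → Gd X (2 ^ i * a) η (2 ^ i * s) z.im) (hf : Fr κ X (s1 / 4) η' z.im)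
    (h0 : Fs X s ω z = 0) : |z.re| ≤ 2 ^ j * s := by
  by_cases h1 : z.re = 0
  · rw [h1, abs_zero]
    positivity
  · obtain ⟨b, hb, h2⟩ := h.bad s ω z hs hω h0 (Or.inl h1)
    have h3 : z.re ^ 2 ≤ b.re ^ 2 := by nlinarith [sq_nonneg s, sq_nonneg (z.im - b.im)]
    have h4 : (b.im - z.im) ^ 2 ≤ b.re ^ 2 := by nlinarith [sq_nonneg s, sq_nonneg z.re]
    have h5 := sq_le_sq.1 h4
    rcases le_or_gt (2 ^ j * s) |b.re| with h6 | h6
    · exact (h.no_far hs hs1 hJ hjJ hg hf hb h6 (by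
        have : 0 < 2 ^ j * s := by positivity
        linarith)).elim
    · exact (sq_le_sq.1 h3).trans h6.le

/-- the logarithmic derivative at a good height -/
theorem ld_gd (hd : Differentiable ℂ X) {a η r y : ℝ} (hr : 0 < r) (hg : Gd X a η r y) {y' : ℝ}
    (h1 : |y' - y| ≤ r) :
    X ((r : ℂ) + y' * I) ≠ 0 ∧ |(logDeriv X ((r : ℂ) + y' * I)).re - a / r| ≤ η * a / r := by
  obtain ⟨t', ht', hN⟩ := hg
  have hrc : (r : ℂ) ≠ 0 := by exact_mod_cast hr.ne'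
  obtain ⟨v, hv⟩ : ∃ v : ℝ, v = (y' - t') / r := ⟨_, rfl⟩
  have hy' : y' = t' + r * v := by rw [hv]; field_simp; ring
  have hv1 : |v| ≤ 2 := by
    have h4 : |r * v| ≤ r * 2 := by
      have e : r * v = (y' - y) + (y - t') := by rw [hy']; ring
      rw [e]
      exact (abs_add_le _ _).trans (by linarith)
    rw [abs_mul, abs_of_pos hr] at h4
    exact le_of_mul_le_mul_left h4 hr
  have e1 : I * t' + r * ((1 : ℂ) + v * I) = (r : ℂ) + y' * I := by
    rw [hy']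
    push_cast
    ring
  have h5 := hN.far ((1 : ℂ) + v * I) (by simp; norm_num) (by
    refine (norm_add_le _ _).trans ?_
    rw [norm_mul, Complex.norm_real, Complex.norm_I, norm_one, Real.norm_eq_abs]
    linarith)
  obtain ⟨h6, h7⟩ := h5
  rw [e1] at h6
  refine ⟨h6, ?_⟩
  have h8 : logDeriv (fun z : ℂ => X (I * t' + r * z)) ((1 : ℂ) + v * I) = r * logDeriv X ((r : ℂ) + y' * I) := by
    rw [logDeriv_apply, logDeriv_apply]
    have h9 : HasDerivAt (fun z : ℂ => X (I * t' + r * z)) (deriv X (I * t' + r * ((1 : ℂ) + v * I)) * (r : ℂ))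
        ((1 : ℂ) + v * I) := by
      have h10 : HasDerivAt (fun z : ℂ => I * t' + r * z) (r : ℂ) ((1 : ℂ) + v * I) := by
        have := ((hasDerivAt_id ((1 : ℂ) + v * I)).const_mul (r : ℂ)).const_add (I * t')
        simpa using this
      exact (hd _).hasDerivAt.comp _ h10
    rw [h9.deriv, e1]
    ring
  rw [h8] at h7
  have h9 := (Complex.abs_re_le_norm _).trans h7
  rw [Complex.sub_re, Complex.ofReal_re, Complex.re_ofReal_mul] at h9
  have e2 : (logDeriv X ((r : ℂ) + y' * I)).re - a / r = (r * (logDeriv X ((r : ℂ) + y' * I)).re - a) / r := by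
    field_simp
  rw [e2, abs_div, abs_of_pos hr]
  exact div_le_div_of_nonneg_right h9 hr.le

/-- a zero which is on the line, simple, and followed by the next zero at the expected distance -/
def Nice (κ η : ℝ) (F : ℂ → ℂ) (z : ℂ) : Prop :=
  z.re = 0 ∧ deriv F z ≠ 0 ∧ ∃ y1 : ℝ, z.im < y1 ∧ F (y1 * I) = 0 ∧
    (∀ w : ℂ, F w = 0 → z.im < w.im → y1 ≤ w.im) ∧
    |κ * Real.log z.im * (y1 - z.im) / Real.pi - 1| ≤ η

/-- an elementary inequality -/
theorem nice_aux {η κ l d m n q P : ℝ} (hκ : 0 < κ) (hη0 : 0 < η) (hη1 : η ≤ 1) (hm : 0 < m)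
    (hq : q ≤ η / 8 * m) (hn1 : m ≤ n) (hn2 : n ≤ q + m) (hl : |l - m| ≤ q) (hd : 0 < d) (hP : 0 < P)
    (h1 : (κ * l - η / 8 * (κ * l)) * d ≤ P) (h2 : P ≤ (κ * l + η / 8 * (κ * l)) * d) :
    |κ * n * d / P - 1| ≤ η := by
  obtain ⟨g1, g2⟩ := abs_le.1 hl
  have k1 : m * (1 - η / 8) ≤ l := by linarith
  have k2 : l ≤ m * (1 + η / 8) := by linarith
  have hl0 : 0 < l := lt_of_lt_of_le (mul_pos hm (by linarith)) k1
  have hκd : 0 < κ * d := mul_pos hκ hd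
  have a1 : n ≤ l * (1 + η / 3) := by
    have h3 : m * (1 - η / 8) * (1 + η / 3) ≤ l * (1 + η / 3) := mul_le_mul_of_nonneg_right k1 (by linarith)
    have h4 : m * (1 + η / 8) ≤ m * ((1 - η / 8) * (1 + η / 3)) := by
      apply mul_le_mul_of_nonneg_left _ hm.le
      nlinarith
    nlinarith
  have a2 : l * (1 - η / 3) ≤ n := by
    have h3 : l * (1 - η / 3) ≤ m * (1 + η / 8) * (1 - η / 3) := mul_le_mul_of_nonneg_right k2 (by linarith)
    have h4 : m * ((1 + η / 8) * (1 - η / 3)) ≤ m * 1 := by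
      apply mul_le_mul_of_nonneg_left _ hm.le
      nlinarith
    nlinarith
  obtain ⟨Q, hQ⟩ : ∃ Q, Q = κ * l * d := ⟨_, rfl⟩
  have hQ0 : 0 < Q := by rw [hQ]; positivity
  have b1 : Q * (1 - η / 8) ≤ P := by rw [hQ]; linarith
  have b2 : P ≤ Q * (1 + η / 8) := by rw [hQ]; linarith
  have c1 : κ * n * d ≤ Q * (1 + η / 3) := by
    have := mul_le_mul_of_nonneg_left a1 hκd.le
    rw [hQ]
    linarith
  have c2 : Q * (1 - η / 3) ≤ κ * n * d := by
    have := mul_le_mul_of_nonneg_left a2 hκd.le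
    rw [hQ]
    linarith
  rw [abs_le]
  constructor
  · rw [le_sub_iff_add_le, le_div_iff₀ hP]
    have h3 : P * (1 - η) ≤ Q * (1 + η / 8) * (1 - η) := mul_le_mul_of_nonneg_right b2 (by linarith)
    have h4 : Q * ((1 + η / 8) * (1 - η)) ≤ Q * (1 - η / 3) := by
      apply mul_le_mul_of_nonneg_left _ hQ0.le
      nlinarith
    nlinarith
  · rw [sub_le_iff_le_add, div_le_iff₀ hP]
    have h3 : Q * (1 - η / 8) * (1 + η) ≤ P * (1 + η) := mul_le_mul_of_nonneg_right b1 (by linarith)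
    have h4 : Q * (1 + η / 3) ≤ Q * ((1 - η / 8) * (1 + η)) := by
      apply mul_le_mul_of_nonneg_left _ hQ0.le
      nlinarith
    nlinarith

/-- from the bounds for the distance to the definition -/
theorem nice_of {η l d T y : ℝ} (hκ : 0 < κ) (hη0 : 0 < η) (hη1 : η ≤ 1) (hT : 2 ≤ T)
    (hTη : Real.log 3 ≤ η / 8 * Real.log T) (hy1 : T < y) (hy2 : y ≤ 3 * T)
    (hl : |l - Real.log T| ≤ Real.log 3) (hd : 0 < d)
    (h1 : (κ * l - η / 8 * (κ * l)) * d ≤ Real.pi) (h2 : Real.pi ≤ (κ * l + η / 8 * (κ * l)) * d) :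
    |κ * Real.log y * d / Real.pi - 1| ≤ η := by
  have hly2 : Real.log y ≤ Real.log 3 + Real.log T := by
    rw [← Real.log_mul (by norm_num) (by linarith)]
    exact Real.log_le_log (by linarith) hy2
  exact nice_aux hκ hη0 hη1 (Real.log_pos (by linarith)) hTη (Real.log_le_log (by linarith) hy1.le) hly2 hl hd
    Real.pi_pos h1 h2

end Pool.Agent.Q278.ES
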