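import Pool.Agent.Q278.ES.C
import Pool.Agent.Y671.LD.Cov

set_option autoImplicit false

/-!
# The zeros of `X(z + s) - ω X(z - s)` which are not nice, in a dyadic window
-/

namespace Pool.Agent.Q278.ES

open Complex Set Metric MeasureTheory
open Pool.Agent.H24R2.DZ (NN)
open Pool.Agent.Y671.GL (FarL GoodX TopL)
open Pool.Agent.Y671.LD (cover)
open scoped ComplexConjugate

variable {κ : ℝ} {X : ℂ → ℂ}

/-- splitting a sum according to a cover by three kinds of sets -/
theorem split3 (w : ℂ → ℝ) (hw : ∀ s, 0 ≤ w s) (S : Finset ℂ) (pc pf : ℂ → Prop) (p : ℕ → ℂ → Prop)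
    [DecidablePred pc] [DecidablePred pf] [∀ i, DecidablePred (p i)] (J : ℕ)
    (h : ∀ s ∈ S, pc s ∨ pf s ∨ ∃ i < J, p i s) :
    ∑ s ∈ S, w s ≤ ∑ s ∈ S.filter pc, w s + ∑ s ∈ S.filter pf, w s +
      ∑ i ∈ Finset.range J, ∑ s ∈ S.filter (p i), w s := by
  simp only [Finset.sum_filter]
  rw [Finset.sum_comm (s := Finset.range J), ← Finset.sum_add_distrib, ← Finset.sum_add_distrib]
  apply Finset.sum_le_sum
  intro s hs
  have hn : ∀ (q : Prop) [Decidable q], 0 ≤ (if q then w s else 0) := by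
    intro q _
    split_ifs
    · exact hw s
    · exact le_rfl
  have hsum : 0 ≤ ∑ i ∈ Finset.range J, (if p i s then w s else 0) :=
    Finset.sum_nonneg fun i _ => hn _
  rcases h s hs with h1 | h1 | ⟨i, hi, h1⟩
  · rw [if_pos h1]; linarith [hn (pf s)]
  · rw [if_pos h1]; linarith [hn (pc s)]
  · have h2 : w s ≤ ∑ i ∈ Finset.range J, (if p i s then w s else 0) := by
      have := Finset.single_le_sum (f := fun i => if p i s then w s else 0)
        (fun i _ => hn _) (Finset.mem_range.2 hi)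
      simp only [if_pos h1] at this
      exact this
    linarith [hn (pf s), hn (pc s)]

/-- the geometric sum -/
theorem geo {c a : ℝ} (hc : 0 < c) (ha : 1 ≤ a) (J : ℕ) :
    ∑ i ∈ Finset.range J, Real.exp (-(c * (2 ^ i * a))) ≤ Real.exp (-(c * a)) * (1 / (1 - Real.exp (-c))) := by
  have hq0 : 0 ≤ Real.exp (-c) := (Real.exp_pos _).le
  have hq1 : Real.exp (-c) < 1 := Real.exp_lt_one_iff.2 (by linarith)
  have h1 : ∀ i ∈ Finset.range J, Real.exp (-(c * (2 ^ i * a))) ≤ Real.exp (-(c * a)) * Real.exp (-c) ^ i := by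
    intro i _
    rw [← Real.exp_nat_mul, ← Real.exp_add]
    apply Real.exp_le_exp.2
    have h2 : a + i ≤ 2 ^ i * a := by
      have h3 : (i : ℝ) + 1 ≤ 2 ^ i := by
        have h3 : i + 1 ≤ 2 ^ i := Nat.lt_two_pow_self (n := i)
        exact_mod_cast h3
      have h4 : ((i : ℝ) + 1) * a ≤ 2 ^ i * a := mul_le_mul_of_nonneg_right h3 (by linarith)
      have h5 : (0 : ℝ) ≤ i := Nat.cast_nonneg i
      nlinarith
    nlinarith
  refine (Finset.sum_le_sum h1).trans ?_
  rw [← Finset.mul_sum]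
  apply mul_le_mul_of_nonneg_left _ (Real.exp_pos _).le
  have h5 := (summable_geometric_of_lt_one hq0 hq1).sum_le_tsum (Finset.range J)
    (fun i _ => pow_nonneg hq0 i)
  rw [tsum_geometric_of_lt_one hq0 hq1] at h5
  rw [one_div]
  exact h5

/-- nice zeros at heights good at all scales -/
theorem Base.nice_small (h : Base κ X) {η s s1 T : ℝ} {ω z : ℂ} {J : ℕ} (hη0 : 0 < η) (hη1 : η ≤ 1)
    (hT : 2 ≤ T) (hTη : Real.log 3 ≤ η / 8 * Real.log T) (hs : 0 < s) (hs1 : s1 ≤ 1) (hss : s ≤ s1)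
    (hω : ‖ω‖ = 1) (hJ : s1 / 2 < 2 ^ J * s) (ha : 16 ≤ κ * s * Real.log T)
    (hg : ∀ i : ℕ, i ≤ J → Gd X (2 ^ i * (κ * s * Real.log T)) (η / 8) (2 ^ i * s) z.im) {η' : ℝ}
    (hf : Fr κ X (s1 / 4) η' z.im) (h0 : Fs X s ω z = 0) (h1 : T < z.im) (h2 : z.im ≤ 2 * T) :
    Nice κ η (Fs X s ω) z := by
  have hκ := h.κ_pos
  have hl : 0 < Real.log T := Real.log_pos (by linarith)
  have hκl : 0 < κ * Real.log T := by positivity
  have hg0 := hg 0 (Nat.zero_le _)
  rw [pow_zero, one_mul, one_mul] at hg0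
  have hLe : κ * Real.log T - η / 8 * (κ * Real.log T) = (1 - η / 8) * (κ * Real.log T) := by ring
  have hres := h.nice (D := s / 4) (L := κ * Real.log T) (e := η / 8 * (κ * Real.log T)) (z := z) hs hω
    (by positivity) (by positivity) (by nlinarith) (by
      rw [hLe]
      have h3 := Real.pi_lt_d2
      have h4 : (7 / 8 : ℝ) ≤ 1 - η / 8 := by linarith
      have h5 : (7 / 8 : ℝ) * (κ * Real.log T * (s / 4)) ≤ (1 - η / 8) * (κ * Real.log T * (s / 4)) :=
        mul_le_mul_of_nonneg_right h4 (by positivity)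
      nlinarith) (by
      intro y h3 h4
      have h5 := ld_gd h.diff hs hg0 (y' := y) (by
        rw [abs_of_nonneg (by linarith)]
        linarith)
      have e1 : κ * s * Real.log T / s = κ * Real.log T := by field_simp
      have e2 : η / 8 * (κ * s * Real.log T) / s = η / 8 * (κ * Real.log T) := by field_simp
      rw [e1, e2] at h5
      exact h5) (by
      intro b hb h3 h4
      refine h.no_far (j := 0) hs hs1 hJ (by simpa using hss) (fun i _ hi => hg i hi) hf hb (by simpa using h3) ?_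
      rw [pow_zero, one_mul]
      linarith) h0
  obtain ⟨h3, h4, y1, h5, h6, h7, h8, h9⟩ := hres
  refine ⟨h3, h4, y1, h5, h6, h7, ?_⟩
  exact nice_of hκ hη0 hη1 hT hTη h1 (by linarith) (by rw [sub_self, abs_zero]; exact Real.log_nonneg (by norm_num))
    (by linarith) h8 h9

/-- nice zeros for large shifts -/
theorem Base.nice_large (h : Base κ X) {η s s1 T : ℝ} {ω z : ℂ} (hη0 : 0 < η) (hη1 : η ≤ 1)
    (hT : 2 ≤ T) (hTη : Real.log 3 ≤ η / 8 * Real.log T) (hs : 0 < s) (hs1 : s ≤ 1) (hss : s1 / 4 ≤ s)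
    (hω : ‖ω‖ = 1) (ha : 32 ≤ κ * (Real.log T - Real.log 3))
    (hf : Fr κ X (s1 / 4) (η / 8 * κ) z.im) (h0 : Fs X s ω z = 0) (h1 : T < z.im) (h2 : z.im ≤ 2 * T) :
    Nice κ η (Fs X s ω) z := by
  have hκ := h.κ_pos
  obtain ⟨t', ht', hF⟩ := id hf
  obtain ⟨g1, g2⟩ := abs_le.1 ht'
  have ht1 : T / 3 ≤ t' := by linarith
  have ht2 : t' ≤ 3 * T := by linarith
  have hl1 : Real.log T - Real.log 3 ≤ Real.log t' := by
    rw [← Real.log_div (by linarith) (by norm_num)]
    exact Real.log_le_log (by linarith) ht1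
  have hl2 : Real.log t' ≤ Real.log 3 + Real.log T := by
    rw [← Real.log_mul (by norm_num) (by linarith)]
    exact Real.log_le_log (by linarith) ht2
  have hκl : 32 ≤ κ * Real.log t' := ha.trans (mul_le_mul_of_nonneg_left hl1 hκ.le)
  have hLe : κ * Real.log t' - η / 8 * (κ * Real.log t') = (1 - η / 8) * (κ * Real.log t') := by ring
  have hres := h.nice (D := 1 / 4) (L := κ * Real.log t') (e := η / 8 * (κ * Real.log t')) (z := z) hs hω
    (by norm_num) (by positivity) (by nlinarith) (by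
      rw [hLe]
      have h3 := Real.pi_lt_d2
      have h4 : (7 / 8 : ℝ) ≤ 1 - η / 8 := by linarith
      have h5 : (7 / 8 : ℝ) * (κ * Real.log t' * (1 / 4)) ≤ (1 - η / 8) * (κ * Real.log t' * (1 / 4)) :=
        mul_le_mul_of_nonneg_right h4 (by linarith)
      nlinarith) (by
      intro y h3 h4
      have h5 := hF ((s : ℂ) + y * I - I * t') (by simpa using hss) (by
        refine (Complex.norm_le_abs_re_add_abs_im _).trans ?_
        have e1 : ((s : ℂ) + y * I - I * t').re = s := by simp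
        have e2 : ((s : ℂ) + y * I - I * t').im = y - t' := by simp
        rw [e1, e2, abs_of_pos hs]
        have : |y - t'| ≤ 1 := by rw [abs_le]; constructor <;> linarith
        linarith)
      rw [add_sub_cancel] at h5
      refine ⟨h5.1, ?_⟩
      have h6 := (Complex.abs_re_le_norm _).trans h5.2
      rw [Complex.sub_re, Complex.ofReal_re] at h6
      have e : η / 8 * κ * Real.log t' = η / 8 * (κ * Real.log t') := by ring
      rw [e] at h6
      exact h6) (by
      intro b hb h3 h4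
      exact h.fr_ne hf hb (hss.trans h3) (by linarith)) h0
  obtain ⟨h3, h4, y1, h5, h6, h7, h8, h9⟩ := hres
  refine ⟨h3, h4, y1, h5, h6, h7, ?_⟩
  exact nice_of hκ hη0 hη1 hT hTη h1 (by linarith) (by rw [abs_le]; constructor <;> linarith)
    (by linarith) h8 h9

end Pool.Agent.Q278.ES
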