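import Pool.Agent.Q278.ES.D

set_option autoImplicit false

/-!
# The dyadic theorem
-/

namespace Pool.Agent.Q278.ES

open Complex Set Metric MeasureTheory
open Pool.Agent.H24R2.DZ (NN)
open Pool.Agent.Y671.GL (FarL GoodX TopL)
open Pool.Agent.Y671.LD (cover)
open scoped ComplexConjugate

variable {κ : ℝ} {X : ℂ → ℂ}

/-- the unit windows -/
theorem Base.win (h : Base κ X) : ∃ K : ℝ, 0 < K ∧ ∀ (s T : ℝ) (ω : ℂ), 2 ≤ T → 0 < s → s ≤ 1 →
    1 ≤ κ * s * Real.log T → ‖ω‖ = 1 → ∀ (z : ℂ) (S : Finset ℂ), T < z.im → z.im ≤ 2 * T →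
    (∀ z' ∈ S, Fs X s ω z' = 0 ∧ |z'.im - z.im| ≤ 1 / 2) →
    ∑ z' ∈ S, (analyticOrderNatAt (Fs X s ω) z' : ℝ) ≤ K * Real.log T := by
  obtain ⟨K, hK, hc⟩ := h.cnt
  have hκ := h.κ_pos
  refine ⟨K * (3 + κ), by positivity, fun s T ω hT hs hs1 ha hω z S h1 h2 hS => ?_⟩
  have hl : 0 < Real.log T := Real.log_pos (by linarith)
  refine (hc s z.im ω hs hs1 hω (by linarith) S (fun z' hz' => ⟨h.fs_strip hs hω (hS z' hz').1, (hS z' hz').2⟩)).trans ?_
  have h3 : Real.log (3 + z.im) ≤ 3 * Real.log T := by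
    have e : 3 * Real.log T = Real.log (T ^ 3) := by rw [Real.log_pow]; norm_num
    rw [e]
    refine Real.log_le_log (by linarith) ?_
    nlinarith [mul_pos (by linarith : 0 < T) (by linarith : 0 < T)]
  have h4 : Real.log (1 / s) ≤ κ * Real.log T := by
    have h5 : 1 / s ≤ κ * Real.log T := by
      rw [div_le_iff₀ hs]
      linarith
    have h6 := Real.log_le_sub_one_of_pos (by positivity : 0 < 1 / s)
    linarith
  calc K * (Real.log (3 + z.im) + Real.log (1 / s)) ≤ K * (3 * Real.log T + κ * Real.log T) := by gcongr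
    _ = _ := by ring

theorem exists_J {s s1 : ℝ} (hs : 0 < s) (h : s ≤ s1) : ∃ J : ℕ, s1 / 2 < 2 ^ J * s ∧ 2 ^ J * s ≤ s1 := by
  have hx : 1 ≤ s1 / s := by rwa [le_div_iff₀ hs, one_mul]
  obtain ⟨J, h1, h2⟩ := exists_nat_pow_near hx (by norm_num : (1 : ℝ) < 2)
  rw [le_div_iff₀ hs] at h1
  rw [div_lt_iff₀ hs, pow_succ] at h2
  exact ⟨J, by linarith, h1⟩

/-- **The dyadic theorem.** -/
theorem Base.dyadic (h : Base κ X) {η : ℝ} (hη0 : 0 < η) (hη1 : η ≤ 1) : ∃ c C a0 T0 : ℝ, 0 < c ∧ 0 < C ∧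
    1 ≤ a0 ∧ 2 ≤ T0 ∧ ∀ (T s : ℝ) (ω : ℂ), T0 ≤ T → 0 < s → s ≤ 1 → a0 ≤ κ * s * Real.log T → ‖ω‖ = 1 →
      ∀ S : Finset ℂ, (∀ z ∈ S, Fs X s ω z = 0 ∧ T < z.im ∧ z.im ≤ 2 * T ∧ ¬ Nice κ η (Fs X s ω) z) →
      ∑ z ∈ S, (analyticOrderNatAt (Fs X s ω) z : ℝ) ≤ C * T * Real.log T * Real.exp (-(c * s * Real.log T)) := by
  classical
  have hκ := h.κ_pos
  obtain ⟨s1, hs1d⟩ : ∃ s1 : ℝ, s1 = min (1 / 100) (1 / (100 * κ)) := ⟨_, rfl⟩
  have hs10 : 0 < s1 := by rw [hs1d]; positivity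
  have hs11 : s1 ≤ 1 / 100 := by rw [hs1d]; exact min_le_left _ _
  have hs12 : κ * s1 ≤ 1 / 100 := by
    have : s1 ≤ 1 / (100 * κ) := by rw [hs1d]; exact min_le_right _ _
    calc κ * s1 ≤ κ * (1 / (100 * κ)) := by gcongr
      _ = 1 / 100 := by field_simp
  obtain ⟨c1, C1, a1, T1, hc1, hC1, ha1, hT1, hgood⟩ := h.good (η / 8) (by positivity)
  obtain ⟨c2, C2, T2, hc2, hC2, hT2, htop⟩ := h.top 3 (s1 / 4) (η / 8 * κ) (by norm_num) (by positivity) (by positivity)
  obtain ⟨K, hK, hwin⟩ := h.win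
  obtain ⟨c, hcd⟩ : ∃ c : ℝ, c = min (c1 * κ) c2 := ⟨_, rfl⟩
  have hc : 0 < c := by rw [hcd]; positivity
  have hcc1 : c ≤ c1 * κ := by rw [hcd]; exact min_le_left _ _
  have hcc2 : c ≤ c2 := by rw [hcd]; exact min_le_right _ _
  have hq1 : Real.exp (-c1) < 1 := Real.exp_lt_one_iff.2 (by linarith)
  have hq2 : 0 < 1 - Real.exp (-c1) := by linarith
  obtain ⟨C, hCd⟩ : ∃ C : ℝ, C = 50 * K * C2 + 100 / s1 * K * C1 + 8000 * κ * C1 * (1 / (1 - Real.exp (-c1))) := ⟨_, rfl⟩
  have hC : 0 < C := by rw [hCd]; positivity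
  -- thresholds
  obtain ⟨T3, hT3⟩ : ∃ T3 : ℝ, T3 = Real.exp (max (8 / η * Real.log 3) (32 / κ + Real.log 3)) := ⟨_, rfl⟩
  refine ⟨c, C, max a1 16, max (max T1 T2) (max T3 3), hc, hC, le_max_of_le_left ha1,
    le_max_of_le_left (le_max_of_le_left hT1), fun T s ω hT hs hs1 ha hω S hS => ?_⟩
  have hTT1 : T1 ≤ T := (le_max_left _ _).trans ((le_max_left _ _).trans hT)
  have hTT2 : T2 ≤ T := (le_max_right _ _).trans ((le_max_left _ _).trans hT)
  have hTT3 : T3 ≤ T := (le_max_left _ _).trans ((le_max_right _ _).trans hT)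
  have hT3' : 3 ≤ T := (le_max_right _ _).trans ((le_max_right _ _).trans hT)
  have hT2' : 2 ≤ T := by linarith
  have hT0 : 0 < T := by linarith
  have hl : 0 < Real.log T := Real.log_pos (by linarith)
  have hlog3 : max (8 / η * Real.log 3) (32 / κ + Real.log 3) ≤ Real.log T := by
    rw [Real.le_log_iff_exp_le hT0, ← hT3]
    exact hTT3
  have hTη : Real.log 3 ≤ η / 8 * Real.log T := by
    have h1 := (le_max_left _ _).trans hlog3
    have h2 : η / 8 * (8 / η * Real.log 3) ≤ η / 8 * Real.log T := by gcongr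
    have e : η / 8 * (8 / η * Real.log 3) = Real.log 3 := by field_simp
    rwa [e] at h2
  have hT32 : 32 ≤ κ * (Real.log T - Real.log 3) := by
    have h1 := (le_max_right _ _).trans hlog3
    have h2 : κ * (32 / κ) ≤ κ * (Real.log T - Real.log 3) := by
      apply mul_le_mul_of_nonneg_left _ hκ.le
      linarith
    have e : κ * (32 / κ) = 32 := by field_simp
    rwa [e] at h2
  have ha1' : a1 ≤ κ * s * Real.log T := (le_max_left _ _).trans ha
  have ha16 : 16 ≤ κ * s * Real.log T := (le_max_right _ _).trans ha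
  obtain ⟨a, had⟩ : ∃ a : ℝ, a = κ * s * Real.log T := ⟨_, rfl⟩
  obtain ⟨E, hE⟩ : ∃ E : ℝ, E = Real.exp (-(c * s * Real.log T)) := ⟨_, rfl⟩
  have hE0 : 0 < E := by rw [hE]; exact Real.exp_pos _
  rw [← hE]
  obtain ⟨w, hw⟩ : ∃ w : ℂ → ℝ, w = fun z => (analyticOrderNatAt (Fs X s ω) z : ℝ) := ⟨_, rfl⟩
  have hw0 : ∀ z, 0 ≤ w z := fun z => by rw [hw]; exact Nat.cast_nonneg _
  have hwe : ∀ S' : Finset ℂ, ∑ z ∈ S', (analyticOrderNatAt (Fs X s ω) z : ℝ) = ∑ z ∈ S', w z := fun S' => by rw [hw]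
  rw [hwe]
  -- the far windows
  have hfar : ∀ S' : Finset ℂ, S' ⊆ S → (∀ z ∈ S', ¬ Fr κ X (s1 / 4) (η / 8 * κ) z.im) →
      ∑ z ∈ S', w z ≤ 50 * K * C2 * T * Real.log T * E := by
    intro S' hS' hbad
    have h1 := cover w hw0 (fun z => z.im) (1 / 100) (K * Real.log T) (by norm_num) (by positivity) S'
      {t : ℝ | T / 2 ≤ t ∧ t ≤ 3 * T ∧ ¬ FarL κ X 3 (s1 / 4) (η / 8 * κ) t} (C2 * T ^ (1 - c2)) (by positivity)
      (by
        intro z hz t ht
        obtain ⟨-, g1, g2, -⟩ := hS z (hS' hz)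
        obtain ⟨g3, g4⟩ := ht
        refine ⟨by linarith, by linarith, fun hF => hbad z hz ⟨t, ?_, hF⟩⟩
        rw [abs_le]
        constructor <;> linarith) (htop T hTT2) (by
        intro z hz
        obtain ⟨-, g1, g2, -⟩ := hS z (hS' hz)
        rw [← hwe]
        refine hwin s T ω hT2' hs hs1 (by linarith) hω z _ g1 g2 fun z' hz' => ?_
        rw [Finset.mem_filter] at hz'
        exact ⟨(hS z' (hS' hz'.1)).1, hz'.2.trans (by norm_num)⟩)
    refine h1.trans ?_
    have h2 : T ^ (1 - c2) ≤ T * E := by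
      rw [Real.rpow_sub hT0, Real.rpow_one, hE, div_eq_mul_inv, ← Real.rpow_neg hT0.le]
      apply mul_le_mul_of_nonneg_left _ hT0.le
      rw [Real.rpow_def_of_pos hT0]
      apply Real.exp_le_exp.2
      have h3 : c * s ≤ c2 * 1 := mul_le_mul hcc2 hs1 hs.le hc2.le
      nlinarith
    calc K * Real.log T * (C2 * T ^ (1 - c2)) / (2 * (1 / 100)) = 50 * (K * Real.log T * (C2 * T ^ (1 - c2))) := by ring
      _ ≤ 50 * (K * Real.log T * (C2 * (T * E))) := by gcongr
      _ = _ := by ring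
  have hKC1 : 0 ≤ 100 / s1 * K * C1 * T * Real.log T * E := by positivity
  have hKC2 : 0 ≤ 50 * K * C2 * T * Real.log T * E := by positivity
  have hKC3 : 0 ≤ 8000 * κ * C1 * (1 / (1 - Real.exp (-c1))) * T * Real.log T * E := by positivity
  have hsum : C * T * Real.log T * E = 50 * K * C2 * T * Real.log T * E + 100 / s1 * K * C1 * T * Real.log T * E +
      8000 * κ * C1 * (1 / (1 - Real.exp (-c1))) * T * Real.log T * E := by
    rw [hCd]
    ring
  rcases lt_or_ge s1 s with hss | hss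
  · -- large shifts
    have h1 := hfar S (Finset.Subset.refl _) (by
      intro z hz hf
      obtain ⟨g0, g1, g2, g3⟩ := hS z hz
      exact g3 (h.nice_large hη0 hη1 hT2' hTη hs hs1 (by linarith) hω hT32 hf g0 g1 g2))
    rw [hsum]
    linarith
  · -- small shifts
    obtain ⟨J, hJ1, hJ2⟩ := exists_J hs hss
    have hdich : ∀ z ∈ S, ¬ Fr κ X (s1 / 4) (η / 8 * κ) z.im ∨ ¬ Gd X (2 ^ J * a) (η / 8) (2 ^ J * s) z.im ∨
        ∃ i < J, (¬ Gd X (2 ^ i * a) (η / 8) (2 ^ i * s) z.im ∧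
          (∀ i', i < i' → i' ≤ J → Gd X (2 ^ i' * a) (η / 8) (2 ^ i' * s) z.im) ∧
          Fr κ X (s1 / 4) (η / 8 * κ) z.im) := by
      intro z hz
      obtain ⟨g0, g1, g2, g3⟩ := hS z hz
      by_cases hf : Fr κ X (s1 / 4) (η / 8 * κ) z.im
      · right
        by_cases hgJ : Gd X (2 ^ J * a) (η / 8) (2 ^ J * s) z.im
        · right
          by_cases hall : ∀ i : ℕ, i ≤ J → Gd X (2 ^ i * a) (η / 8) (2 ^ i * s) z.im
          · exfalso
            rw [had] at hall
            exact g3 (h.nice_small hη0 hη1 hT2' hTη hs (by linarith) hss hω hJ1 ha16 hall hf g0 g1 g2)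
          · push Not at hall
            obtain ⟨i0, hi0, hbad⟩ := hall
            obtain ⟨P, hP⟩ : ∃ P : ℕ → Prop, P = fun i => ¬ Gd X (2 ^ i * a) (η / 8) (2 ^ i * s) z.im := ⟨_, rfl⟩
            have hPi : P (Nat.findGreatest P J) := Nat.findGreatest_spec hi0 (by rw [hP]; exact hbad)
            have hPg : ∀ k, Nat.findGreatest P J < k → k ≤ J → ¬ P k := fun k h1 h2 => Nat.findGreatest_is_greatest h1 h2
            refine ⟨Nat.findGreatest P J, ?_, ?_, ?_, hf⟩
            · refine lt_of_le_of_ne (Nat.findGreatest_le J) fun he => ?_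
              rw [he, hP] at hPi
              exact hPi hgJ
            · rw [hP] at hPi ⊢
              exact hPi
            · intro i' h1 h2
              have h3 := hPg i' h1 h2
              rw [hP] at h3
              exact not_not.1 h3
        · left
          exact hgJ
      · left
        exact hf
    have h1 := split3 w hw0 S _ _ _ J hdich
    refine h1.trans ?_
    have hvol : ∀ i : ℕ, i ≤ J → volume {t0 : ℝ | T / 2 ≤ t0 ∧ t0 ≤ 3 * T ∧
        ¬ NN (2 ^ i * a) (η / 8) (fun z => X (I * t0 + ((2 ^ i * s : ℝ) : ℂ) * z))} ≤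
        ENNReal.ofReal (C1 * T * Real.exp (-(c1 * (2 ^ i * a)))) := by
      intro i hi
      have h2i : (2 : ℝ) ^ i ≤ 2 ^ J := pow_le_pow_right₀ (by norm_num) hi
      have h2i1 : (1 : ℝ) ≤ 2 ^ i := one_le_pow₀ (by norm_num)
      have h3 : 2 ^ i * s ≤ s1 := (mul_le_mul_of_nonneg_right h2i hs.le).trans hJ2
      refine hgood T (2 ^ i * a) (2 ^ i * s) hTT1 ?_ (by positivity) (h3.trans hs11) ?_ ?_
      · rw [← had] at ha1'
        have ha00 : 0 ≤ a := by rw [had]; positivity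
        exact ha1'.trans (le_mul_of_one_le_left ha00 h2i1)
      · exact (mul_le_mul_of_nonneg_left h3 hκ.le).trans hs12
      · rw [had]
        ring
    have ha0 : 0 < a := by rw [had]; positivity
    have ha1 : 1 ≤ a := by rw [had]; linarith
    have hsub : ∀ i : ℕ, i ≤ J → ∀ z ∈ S, ¬ Gd X (2 ^ i * a) (η / 8) (2 ^ i * s) z.im →
        Icc (z.im - 2 ^ i * s / 100) (z.im + 2 ^ i * s / 100) ⊆ {t0 : ℝ | T / 2 ≤ t0 ∧ t0 ≤ 3 * T ∧
        ¬ NN (2 ^ i * a) (η / 8) (fun z => X (I * t0 + ((2 ^ i * s : ℝ) : ℂ) * z))} := by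
      intro i hi z hz hbad t ht
      have h2i : (2 : ℝ) ^ i ≤ 2 ^ J := pow_le_pow_right₀ (by norm_num) hi
      have h3 : 2 ^ i * s ≤ s1 := (mul_le_mul_of_nonneg_right h2i hs.le).trans hJ2
      obtain ⟨-, g1, g2, -⟩ := hS z hz
      obtain ⟨g3, g4⟩ := ht
      refine ⟨by linarith, by linarith, fun hN => hbad ⟨t, ?_, hN⟩⟩
      rw [abs_le]
      constructor <;> linarith
    have hexp : Real.exp (-(c1 * a)) ≤ E := by
      rw [hE, had]
      apply Real.exp_le_exp.2
      have h3 : c * (s * Real.log T) ≤ c1 * κ * (s * Real.log T) := mul_le_mul_of_nonneg_right hcc1 (by positivity)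
      nlinarith
    -- first part
    have p1 := hfar (S.filter fun z => ¬ Fr κ X (s1 / 4) (η / 8 * κ) z.im) (Finset.filter_subset _ _)
      (fun z hz => (Finset.mem_filter.1 hz).2)
    -- second part
    have p2 : ∑ z ∈ S.filter (fun z => ¬ Gd X (2 ^ J * a) (η / 8) (2 ^ J * s) z.im), w z ≤
        100 / s1 * K * C1 * T * Real.log T * E := by
      have h2J : 0 < (2 : ℝ) ^ J * s := by positivity
      have h2 := cover w hw0 (fun z => z.im) (2 ^ J * s / 100) (K * Real.log T) (by positivity) (by positivity)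
        (S.filter (fun z => ¬ Gd X (2 ^ J * a) (η / 8) (2 ^ J * s) z.im)) _
        (C1 * T * Real.exp (-(c1 * (2 ^ J * a)))) (by positivity)
        (fun z hz => hsub J le_rfl z (Finset.mem_filter.1 hz).1 (Finset.mem_filter.1 hz).2) (hvol J le_rfl) (by
          intro z hz
          obtain ⟨-, g1, g2, -⟩ := hS z (Finset.mem_filter.1 hz).1
          rw [← hwe]
          refine hwin s T ω hT2' hs hs1 (by linarith) hω z _ g1 g2 fun z' hz' => ?_
          rw [Finset.mem_filter, Finset.mem_filter] at hz'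
          refine ⟨(hS z' hz'.1.1).1, hz'.2.trans ?_⟩
          linarith)
      refine h2.trans ?_
      have h3 : Real.exp (-(c1 * (2 ^ J * a))) ≤ E := by
        refine le_trans (Real.exp_le_exp.2 ?_) hexp
        have h2i1 : (1 : ℝ) ≤ 2 ^ J := one_le_pow₀ (by norm_num)
        have : a ≤ 2 ^ J * a := by nlinarith
        nlinarith
      rw [div_le_iff₀ (by positivity)]
      calc K * Real.log T * (C1 * T * Real.exp (-(c1 * (2 ^ J * a)))) ≤ K * Real.log T * (C1 * T * E) := by gcongr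
        _ = 100 / s1 * K * C1 * T * Real.log T * E * (2 * (s1 / 2 / 100)) := by field_simp
        _ ≤ _ := by gcongr
    -- third part
    have p3 : ∀ i ∈ Finset.range J, ∑ z ∈ S.filter (fun z => ¬ Gd X (2 ^ i * a) (η / 8) (2 ^ i * s) z.im ∧
          (∀ i', i < i' → i' ≤ J → Gd X (2 ^ i' * a) (η / 8) (2 ^ i' * s) z.im) ∧
          Fr κ X (s1 / 4) (η / 8 * κ) z.im), w z ≤
        8000 * κ * C1 * T * Real.log T * Real.exp (-(c1 * (2 ^ i * a))) := by
      intro i hi
      rw [Finset.mem_range] at hi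
      obtain ⟨Si, hSi⟩ : ∃ Si : Finset ℂ, Si = S.filter (fun z => ¬ Gd X (2 ^ i * a) (η / 8) (2 ^ i * s) z.im ∧
          (∀ i', i < i' → i' ≤ J → Gd X (2 ^ i' * a) (η / 8) (2 ^ i' * s) z.im) ∧
          Fr κ X (s1 / 4) (η / 8 * κ) z.im) := ⟨_, rfl⟩
      rw [← hSi]
      have hmem : ∀ z ∈ Si, z ∈ S ∧ ¬ Gd X (2 ^ i * a) (η / 8) (2 ^ i * s) z.im ∧
          (∀ i', i < i' → i' ≤ J → Gd X (2 ^ i' * a) (η / 8) (2 ^ i' * s) z.im) ∧
          Fr κ X (s1 / 4) (η / 8 * κ) z.im := by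
        intro z hz
        rw [hSi, Finset.mem_filter] at hz
        exact hz
      have h2i : (2 : ℝ) ^ (i + 1) ≤ 2 ^ J := pow_le_pow_right₀ (by norm_num) hi
      have h3 : 2 ^ (i + 1) * s ≤ s1 := (mul_le_mul_of_nonneg_right h2i hs.le).trans hJ2
      have h2i0 : (0 : ℝ) < 2 ^ i := by positivity
      have h2i1 : (1 : ℝ) ≤ 2 ^ i := one_le_pow₀ (by norm_num)
      have hpow : (2 : ℝ) ^ (i + 1) = 2 * 2 ^ i := by rw [pow_succ]; ring
      have h2 := cover w hw0 (fun z => z.im) (2 ^ i * s / 100) (80 * (2 ^ (i + 1) * a)) (by positivity) (by positivity)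
        Si _ (C1 * T * Real.exp (-(c1 * (2 ^ i * a)))) (by positivity)
        (fun z hz => hsub i hi.le z (hmem z hz).1 (hmem z hz).2.1) (hvol i hi.le) (by
          intro z hz
          obtain ⟨k1, -, k2, k3⟩ := hmem z hz
          obtain ⟨t', ht', hN⟩ := k2 (i + 1) (Nat.lt_succ_self i) hi
          have h4 := nn_count (X := X) h.diff (a := 2 ^ (i + 1) * a) (η := η / 8) (r := 2 ^ (i + 1) * s) (t0 := t')
            (s := s) (ω := ω) (by rw [hpow]; nlinarith) (by linarith) (by positivity) hs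
            (by rw [hpow]; nlinarith) (by
              have e : s / (2 ^ (i + 1) * s) * (2 ^ (i + 1) * a) = a := by field_simp
              rw [e]
              exact ha1) hω hN (Si.filter fun z' => |z'.im - z.im| ≤ 2 * (2 ^ i * s / 100)) (by
              intro z' hz'
              rw [Finset.mem_filter] at hz'
              obtain ⟨m1, -, m2, m3⟩ := hmem z' hz'.1
              have h5 := h.re_le (z := z') (j := i + 1) (J := J) (a := a) (η := η / 8) hs (by linarith) hω hJ1 h3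
                (fun i' h6 h7 => m2 i' (by omega) h7) m3 (hS z' m1).1
              refine (Complex.norm_le_abs_re_add_abs_im _).trans ?_
              have e1 : (z' - I * t').re = z'.re := by simp
              have e2 : (z' - I * t').im = (z'.im - z.im) + (z.im - t') := by simp
              rw [e1, e2]
              have h6 := abs_add_le (z'.im - z.im) (z.im - t')
              have h7 := hz'.2
              rw [hpow] at h5 ht' ⊢
              have h8 : 0 < 2 ^ i * s := by positivity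
              linarith)
          rw [hw]
          exact h4)
      refine h2.trans ?_
      rw [div_le_iff₀ (by positivity), hpow, had]
      apply le_of_eq
      ring
    have p3' : ∑ i ∈ Finset.range J, ∑ z ∈ S.filter (fun z => ¬ Gd X (2 ^ i * a) (η / 8) (2 ^ i * s) z.im ∧
          (∀ i', i < i' → i' ≤ J → Gd X (2 ^ i' * a) (η / 8) (2 ^ i' * s) z.im) ∧
          Fr κ X (s1 / 4) (η / 8 * κ) z.im), w z ≤
        8000 * κ * C1 * (1 / (1 - Real.exp (-c1))) * T * Real.log T * E := by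
      refine (Finset.sum_le_sum p3).trans ?_
      rw [← Finset.mul_sum]
      have h2 := geo hc1 ha1 J
      have h3 : Real.exp (-(c1 * a)) * (1 / (1 - Real.exp (-c1))) ≤ E * (1 / (1 - Real.exp (-c1))) :=
        mul_le_mul_of_nonneg_right hexp (by positivity)
      calc 8000 * κ * C1 * T * Real.log T * ∑ i ∈ Finset.range J, Real.exp (-(c1 * (2 ^ i * a)))
          ≤ 8000 * κ * C1 * T * Real.log T * (E * (1 / (1 - Real.exp (-c1)))) := by
            apply mul_le_mul_of_nonneg_left (h2.trans h3)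
            positivity
        _ = _ := by ring
    rw [hsum]
    linarith

end Pool.Agent.Q278.ES
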