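import Pool.Agent.Q278.ES.E

set_option autoImplicit false

/-!
# All heights
-/

namespace Pool.Agent.Q278.ES

open Complex Set Metric MeasureTheory
open Pool.Agent.Y671.GL (FarL GoodX TopL)
open scoped ComplexConjugate

variable {κ : ℝ} {X : ℂ → ℂ}

/-- the trivial bound -/
theorem Base.triv (h : Base κ X) : ∃ K : ℝ, 0 < K ∧ ∀ (s H : ℝ) (ω : ℂ), 2 ≤ H → 0 < s → s ≤ 1 → ‖ω‖ = 1 →
    ∀ S : Finset ℂ, (∀ z ∈ S, Fs X s ω z = 0 ∧ 0 < z.im ∧ z.im ≤ H) →
    ∑ z ∈ S, (analyticOrderNatAt (Fs X s ω) z : ℝ) ≤ K * H * (Real.log H + Real.log (1 / s)) := by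
  classical
  obtain ⟨K, hK, hc⟩ := h.cnt
  refine ⟨K * 2 * 4, by positivity, fun s H ω hH hs hs1 hω S hS => ?_⟩
  have hlH : 0 < Real.log H := Real.log_pos (by linarith)
  have hls : 0 ≤ Real.log (1 / s) := Real.log_nonneg (by rw [one_div]; exact (one_le_inv₀ hs).2 hs1)
  obtain ⟨w, hw⟩ : ∃ w : ℂ → ℝ, w = fun z => (analyticOrderNatAt (Fs X s ω) z : ℝ) := ⟨_, rfl⟩
  have hmaps : ∀ z ∈ S, ⌊z.im⌋₊ ∈ Finset.range (⌊H⌋₊ + 1) := by
    intro z hz
    rw [Finset.mem_range]
    have := Nat.floor_le_floor (hS z hz).2.2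
    omega
  rw [← Finset.sum_fiberwise_of_maps_to hmaps]
  have h1 : ∀ k ∈ Finset.range (⌊H⌋₊ + 1), ∑ z ∈ S with ⌊z.im⌋₊ = k, (analyticOrderNatAt (Fs X s ω) z : ℝ) ≤
      K * (4 * (Real.log H + Real.log (1 / s))) := by
    intro k hk
    rw [Finset.mem_range] at hk
    have hkH : (k : ℝ) ≤ H := (Nat.le_floor_iff (by linarith)).1 (by omega)
    have hk0 : (0 : ℝ) ≤ k := Nat.cast_nonneg k
    refine (hc s ((k : ℝ) + 1 / 2) ω hs hs1 hω (by linarith) _ (fun z hz => ?_)).trans ?_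
    · rw [Finset.mem_filter] at hz
      obtain ⟨g0, g1, g2⟩ := hS z hz.1
      refine ⟨h.fs_strip hs hω g0, ?_⟩
      have h2 := Nat.floor_le g1.le
      have h3 := Nat.lt_floor_add_one z.im
      rw [hz.2] at h2 h3
      rw [abs_le]
      constructor <;> linarith
    · apply mul_le_mul_of_nonneg_left _ hK.le
      have h2 : Real.log (3 + ((k : ℝ) + 1 / 2)) ≤ 3 * Real.log H := by
        have e : 3 * Real.log H = Real.log (H ^ 3) := by rw [Real.log_pow]; norm_num
        rw [e]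
        refine Real.log_le_log (by positivity) ?_
        nlinarith [mul_nonneg (by linarith : 0 ≤ H - 2) (by linarith : 0 ≤ H - 2),
          mul_nonneg (mul_nonneg (by linarith : 0 ≤ H - 2) (by linarith : 0 ≤ H - 2)) (by linarith : 0 ≤ H)]
      linarith
  refine (Finset.sum_le_sum h1).trans ?_
  rw [Finset.sum_const, Finset.card_range, nsmul_eq_mul]
  have h2 : ((⌊H⌋₊ + 1 : ℕ) : ℝ) ≤ 2 * H := by
    push_cast
    have := Nat.floor_le (by linarith : 0 ≤ H)
    linarith
  calc ((⌊H⌋₊ + 1 : ℕ) : ℝ) * (K * (4 * (Real.log H + Real.log (1 / s))))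
      ≤ 2 * H * (K * (4 * (Real.log H + Real.log (1 / s)))) := by gcongr
    _ = _ := by ring

/-- **All heights.** -/
theorem Base.all (h : Base κ X) {η : ℝ} (hη0 : 0 < η) (hη1 : η ≤ 1) : ∃ c C A : ℝ, 0 < c ∧ c ≤ 1 / 2 ∧ 0 < C ∧
    1 ≤ A ∧ ∀ (T s : ℝ) (ω : ℂ), 0 < s → s ≤ 1 → 2 ≤ T → A ≤ s * Real.log T → ‖ω‖ = 1 →
      ∀ S : Finset ℂ, (∀ z ∈ S, Fs X s ω z = 0 ∧ 0 < z.im ∧ z.im ≤ T ∧ ¬ Nice κ η (Fs X s ω) z) →
      ∑ z ∈ S, (analyticOrderNatAt (Fs X s ω) z : ℝ) ≤ C * T ^ (1 - c * s) * Real.log T := by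
  classical
  have hκ := h.κ_pos
  obtain ⟨c0, C0, a0, T0, hc0, hC0, ha0, hT0, hdy⟩ := h.dyadic hη0 hη1
  obtain ⟨K, hK, htr⟩ := h.triv
  obtain ⟨c, hcd⟩ : ∃ c : ℝ, c = min c0 (1 / 2) := ⟨_, rfl⟩
  have hc : 0 < c := by rw [hcd]; positivity
  have hcc0 : c ≤ c0 := by rw [hcd]; exact min_le_left _ _
  have hc2 : c ≤ 1 / 2 := by rw [hcd]; exact min_le_right _ _
  have hlT0 : 0 < Real.log T0 := Real.log_pos (by linarith)
  refine ⟨c, 4 * K + 3 * C0, max 1 (max (2 * a0 / κ) (2 * Real.log T0) + 2 * Real.log 2), hc, hc2, by positivity,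
    le_max_left _ _, fun T s ω hs hs1 hT hA hω S hS => ?_⟩
  have hTpos : 0 < T := by linarith
  have hlT : 0 < Real.log T := Real.log_pos (by linarith)
  have hl2 : 0 < Real.log 2 := Real.log_pos (by norm_num)
  have hA1 : 1 ≤ s * Real.log T := (le_max_left _ _).trans hA
  have hA2 : max (2 * a0 / κ) (2 * Real.log T0) + 2 * Real.log 2 ≤ s * Real.log T := (le_max_right _ _).trans hA
  have hsl : s * Real.log T ≤ Real.log T := by nlinarith
  -- the threshold `M`
  obtain ⟨M, hM⟩ : ∃ M : ℝ, M = max T0 (Real.exp (a0 / (κ * s))) := ⟨_, rfl⟩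
  have hM2 : 2 ≤ M := by rw [hM]; exact hT0.trans (le_max_left _ _)
  have hMT0 : T0 ≤ M := by rw [hM]; exact le_max_left _ _
  have hMe : Real.exp (a0 / (κ * s)) ≤ M := by rw [hM]; exact le_max_right _ _
  -- `2 M ≤ T ^ (1/2)`
  have hMT : Real.log (2 * M) ≤ 1 / 2 * Real.log T := by
    rw [Real.log_mul (by norm_num) (by linarith)]
    have h1 : Real.log M ≤ 1 / 2 * Real.log T - Real.log 2 := by
      have h2 := le_max_left (2 * a0 / κ) (2 * Real.log T0)
      have h3 := le_max_right (2 * a0 / κ) (2 * Real.log T0)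
      rcases le_total T0 (Real.exp (a0 / (κ * s))) with h4 | h4
      · rw [hM, max_eq_right h4, Real.log_exp]
        have h5 : 2 * a0 / κ + 2 * Real.log 2 ≤ s * Real.log T := by linarith
        have h6 : a0 / (κ * s) = (2 * a0 / κ) / s / 2 := by field_simp
        have h7 : 2 * a0 / κ / s ≤ Real.log T - 2 * Real.log 2 := by
          rw [div_le_iff₀ hs]
          have : 2 * Real.log 2 * s ≤ 2 * Real.log 2 := by nlinarith
          nlinarith
        rw [h6]
        linarith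
      · rw [hM, max_eq_left h4]
        linarith
    linarith
  have hMT' : 2 * M ≤ T ^ (1 / 2 : ℝ) := by
    rw [← Real.log_le_log_iff (by linarith) (Real.rpow_pos_of_pos hTpos _), Real.log_rpow hTpos]
    exact hMT
  -- the low range
  obtain ⟨A0, hA0⟩ : ∃ A0 : ℝ, A0 = K * (2 * M) * (Real.log (2 * M) + Real.log (1 / s)) := ⟨_, rfl⟩
  -- induction
  have key : ∀ n : ℕ, ∀ T' : ℝ, T' ≤ 2 ^ n * (2 * M) → T' ≤ T → 0 < T' → ∀ S : Finset ℂ,
      (∀ z ∈ S, Fs X s ω z = 0 ∧ 0 < z.im ∧ z.im ≤ T' ∧ ¬ Nice κ η (Fs X s ω) z) →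
      ∑ z ∈ S, (analyticOrderNatAt (Fs X s ω) z : ℝ) ≤ A0 + 3 * C0 * T' ^ (1 - c * s) * Real.log T := by
    have hlow : ∀ T' : ℝ, T' ≤ 2 * M → 0 < T' → ∀ S : Finset ℂ,
      (∀ z ∈ S, Fs X s ω z = 0 ∧ 0 < z.im ∧ z.im ≤ T' ∧ ¬ Nice κ η (Fs X s ω) z) →
      ∑ z ∈ S, (analyticOrderNatAt (Fs X s ω) z : ℝ) ≤ A0 + 3 * C0 * T' ^ (1 - c * s) * Real.log T := by
      intro T' hT' hT'0 S hS
      have h1 := htr s (2 * M) ω (by linarith) hs hs1 hω S (fun z hz => ⟨(hS z hz).1, (hS z hz).2.1, (hS z hz).2.2.1.trans hT'⟩)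
      have h2 : 0 ≤ 3 * C0 * T' ^ (1 - c * s) * Real.log T := by positivity
      rw [hA0]
      linarith
    intro n
    induction n with
    | zero =>
      intro T' h1 _ h3 S hS
      exact hlow T' (by simpa using h1) h3 S hS
    | succ n ih =>
      intro T' h1 h2 h3 S hS
      rcases le_or_gt T' (2 * M) with h4 | h4
      · exact hlow T' h4 h3 S hS
      · have hT'2 : M < T' / 2 := by linarith
        have i1 := ih (T' / 2) (by rw [pow_succ] at h1; linarith) (by linarith) (by linarith)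
          (S.filter fun z => z.im ≤ T' / 2) (fun z hz => by
            obtain ⟨k1, k2⟩ := Finset.mem_filter.1 hz
            obtain ⟨g0, g1, g2, g3⟩ := hS z k1
            exact ⟨g0, g1, k2, g3⟩)
        have hlg : a0 / (κ * s) ≤ Real.log (T' / 2) := by
          rw [Real.le_log_iff_exp_le (by linarith)]
          linarith
        have i2 := hdy (T' / 2) s ω (by linarith) hs hs1 (by
          rw [div_le_iff₀ (by positivity)] at hlg
          linarith) hω (S.filter fun z => ¬ z.im ≤ T' / 2) (fun z hz => by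
            obtain ⟨k1, k2⟩ := Finset.mem_filter.1 hz
            obtain ⟨g0, g1, g2, g3⟩ := hS z k1
            exact ⟨g0, by linarith, by linarith, g3⟩)
        rw [← Finset.sum_filter_add_sum_filter_not S (fun z => z.im ≤ T' / 2)]
        have hT2 : 0 < T' / 2 := by linarith
        have hlT' : Real.log (T' / 2) ≤ Real.log T := Real.log_le_log hT2 (by linarith)
        have hlT'0 : 0 ≤ Real.log (T' / 2) := Real.log_nonneg (by linarith)
        have e1 : T' / 2 * Real.exp (-(c0 * s * Real.log (T' / 2))) ≤ (T' / 2) ^ (1 - c * s) := by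
          obtain ⟨P, hP⟩ : ∃ P, P = T' / 2 := ⟨_, rfl⟩
          rw [← hP] at hT2 hlT'0 ⊢
          have e : P ^ (1 - c * s) = P * Real.exp (-(c * s * Real.log P)) := by
            rw [Real.rpow_sub hT2, Real.rpow_one, Real.exp_neg, Real.rpow_def_of_pos hT2, div_eq_mul_inv]
            congr 3
            ring
          rw [e]
          apply mul_le_mul_of_nonneg_left _ hT2.le
          apply Real.exp_le_exp.2
          have h6 : c * s ≤ c0 * s := mul_le_mul_of_nonneg_right hcc0 hs.le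
          have h7 := mul_le_mul_of_nonneg_right h6 hlT'0
          linarith
        have e2 : C0 * (T' / 2) * Real.log (T' / 2) * Real.exp (-(c0 * s * Real.log (T' / 2))) ≤
            C0 * (T' / 2) ^ (1 - c * s) * Real.log T := by
          calc C0 * (T' / 2) * Real.log (T' / 2) * Real.exp (-(c0 * s * Real.log (T' / 2)))
              = C0 * (T' / 2 * Real.exp (-(c0 * s * Real.log (T' / 2)))) * Real.log (T' / 2) := by ring
            _ ≤ C0 * (T' / 2) ^ (1 - c * s) * Real.log T := by gcongr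
        have e3 : (T' / 2) ^ (1 - c * s) ≤ 3 / 4 * T' ^ (1 - c * s) := by
          rw [div_eq_mul_inv, Real.mul_rpow h3.le (by norm_num), mul_comm]
          apply mul_le_mul_of_nonneg_right _ (Real.rpow_nonneg h3.le _)
          have h5 : c * s ≤ 1 / 2 := by nlinarith
          calc ((2 : ℝ)⁻¹) ^ (1 - c * s) ≤ ((2 : ℝ)⁻¹) ^ (1 / 2 : ℝ) :=
                Real.rpow_le_rpow_of_exponent_ge (by norm_num) (by norm_num) (by linarith)
            _ ≤ 3 / 4 := by
                have h6 : ((2 : ℝ)⁻¹) ^ (1 / 2 : ℝ) = Real.sqrt (2⁻¹) := (Real.sqrt_eq_rpow _).symm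
                rw [h6, Real.sqrt_le_left (by norm_num)]
                norm_num
        have e4 : 4 * C0 * (T' / 2) ^ (1 - c * s) * Real.log T ≤ 3 * C0 * T' ^ (1 - c * s) * Real.log T := by
          calc 4 * C0 * (T' / 2) ^ (1 - c * s) * Real.log T ≤ 4 * C0 * (3 / 4 * T' ^ (1 - c * s)) * Real.log T := by gcongr
            _ = _ := by ring
        linarith
  obtain ⟨n, hn⟩ : ∃ n : ℕ, T ≤ 2 ^ n * (2 * M) := by
    obtain ⟨n, hn⟩ := pow_unbounded_of_one_lt T (by norm_num : (1 : ℝ) < 2)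
    refine ⟨n, hn.le.trans ?_⟩
    have : (0 : ℝ) < 2 ^ n := by positivity
    nlinarith
  have h1 := key n T hn le_rfl hTpos S hS
  -- the low range is small
  have h2 : A0 ≤ 4 * K * T ^ (1 - c * s) * Real.log T := by
    have h3 : Real.log (1 / s) ≤ Real.log T := by
      have h4 : 1 / s ≤ Real.log T := by
        rw [div_le_iff₀ hs]
        linarith
      have h5 := Real.log_le_sub_one_of_pos (by positivity : 0 < 1 / s)
      linarith
    have h4 : T ^ (1 / 2 : ℝ) ≤ T ^ (1 - c * s) := by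
      apply Real.rpow_le_rpow_of_exponent_le (by linarith)
      nlinarith
    have h5 : 0 ≤ Real.log (2 * M) := Real.log_nonneg (by linarith)
    have h6 : 0 ≤ Real.log (1 / s) := Real.log_nonneg (by rw [one_div]; exact (one_le_inv₀ hs).2 hs1)
    rw [hA0]
    calc K * (2 * M) * (Real.log (2 * M) + Real.log (1 / s)) ≤ K * T ^ (1 - c * s) * (2 * Real.log T) := by
          have h7 : 2 * M ≤ T ^ (1 - c * s) := hMT'.trans h4
          have h8 : Real.log (2 * M) + Real.log (1 / s) ≤ 2 * Real.log T := by linarith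
          gcongr
      _ ≤ _ := by
          have : 0 ≤ K * T ^ (1 - c * s) * Real.log T := by positivity
          linarith
  calc _ ≤ A0 + 3 * C0 * T ^ (1 - c * s) * Real.log T := h1
    _ ≤ 4 * K * T ^ (1 - c * s) * Real.log T + 3 * C0 * T ^ (1 - c * s) * Real.log T := by linarith
    _ = _ := by ring

end Pool.Agent.Q278.ES
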